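import Pool.Agent.Helper853.Zm.Conv

open scoped Topology ContDiff ComplexOrder ENNReal ComplexConjugate
open MeasureTheory Filter

namespace Pool.Agent.Helper853.Zm

variable {m : ℕ} {V : Set (Fin (m + 2) → ℂ)} {u : ℕ → (Fin (m + 2) → ℂ) → ℝ}

lemma integral_eq_toReal (h : Dec V u) {S : Set (Fin (m + 2) → ℂ)} (hS : IsCompact S)
    (hSV : S ⊆ V) (j : ℕ) :
    ∫ x in S, dH (u j) x = (∫⁻ x in S, ENNReal.ofReal (dH (u j) x)).toReal := by
  rw [← integral_toReal]
  · apply setIntegral_congr_fun hS.measurableSet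
    intro x hx
    simp only
    rw [ENNReal.toReal_ofReal ((h.psh j).dH_nonneg h.isOpen (hSV hx))]
  · apply AEMeasurable.ennreal_ofReal
    exact (((h.psh j).continuousOn_dH h.isOpen).mono hSV).aemeasurable hS.measurableSet
  · filter_upwards with x
    exact ENNReal.ofReal_lt_top

lemma integrableOn_dH (h : Dec V u) {S : Set (Fin (m + 2) → ℂ)} (hS : IsCompact S)
    (hSV : S ⊆ V) (j : ℕ) : IntegrableOn (dH (u j)) S :=
  (((h.psh j).continuousOn_dH h.isOpen).mono hSV).integrableOn_compact hS

/-- the main estimate for test functions -/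
lemma test_estimate (h : Dec V u) {f : (Fin (m + 2) → ℂ) → ℝ} (hf : Continuous f)
    (hfc : HasCompactSupport f) (hfV : tsupport f ⊆ V) {D K : Set (Fin (m + 2) → ℂ)}
    (hD : IsCompact D) (hDV : D ⊆ V) (hK : IsCompact K) (hKV : K ⊆ V) {ε B : ℝ} {j : ℕ}
    (hest : ∀ x ∈ V, |f x - D.indicator (fun _ => f 0) x| ≤
      D.indicator (fun _ => ε) x + K.indicator (fun _ => B) x) :
    |(∫ x in V, f x * dH (u j) x) - f 0 * ∫ x in D, dH (u j) x| ≤
      ε * (∫ x in D, dH (u j) x) + B * ∫ x in K, dH (u j) x := by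
  have hVm : MeasurableSet V := h.isOpen.measurableSet
  have hDm := hD.measurableSet
  have hKm := hK.measurableSet
  have hdc := (h.psh j).continuousOn_dH h.isOpen
  -- integrability of f * dH on V
  have hi1 : IntegrableOn (fun x => f x * dH (u j) x) V := by
    have h1 : IntegrableOn (fun x => f x * dH (u j) x) (tsupport f) :=
      (hf.continuousOn.mul (hdc.mono hfV)).integrableOn_compact hfc
    have h2 : ∀ x ∈ V \ tsupport f, f x * dH (u j) x = 0 := by
      intro x hx
      rw [image_eq_zero_of_notMem_tsupport hx.2, zero_mul]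
    exact h1.of_forall_sdiff_eq_zero hVm h2
  have hind : ∀ (S : Set (Fin (m + 2) → ℂ)) (c : ℝ), IsCompact S → S ⊆ V →
      IntegrableOn (fun x => S.indicator (fun _ => c) x * dH (u j) x) V ∧
      ∫ x in V, S.indicator (fun _ => c) x * dH (u j) x = c * ∫ x in S, dH (u j) x := by
    intro S c hS hSV
    have e : (fun x => S.indicator (fun _ => c) x * dH (u j) x) =
        S.indicator (fun x => c * dH (u j) x) := by
      ext x
      by_cases hx : x ∈ S
      · rw [Set.indicator_of_mem hx, Set.indicator_of_mem hx]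
      · rw [Set.indicator_of_notMem hx, Set.indicator_of_notMem hx, zero_mul]
    have h1 : IntegrableOn (fun x => c * dH (u j) x) S := (integrableOn_dH h hS hSV j).const_mul c
    rw [e]
    constructor
    · rw [integrableOn_indicator_iff hS.measurableSet, Set.inter_eq_left.mpr hSV]
      exact h1
    · rw [setIntegral_indicator hS.measurableSet, Set.inter_eq_right.mpr hSV,
        integral_const_mul]
  obtain ⟨iD, eD⟩ := hind D (f 0) hD hDV
  obtain ⟨iD', eD'⟩ := hind D ε hD hDV
  obtain ⟨iK, eK⟩ := hind K B hK hKV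
  rw [← eD, ← eD', ← eK, ← integral_sub hi1 iD, ← integral_add iD' iK]
  refine abs_integral_le_integral_abs.trans ?_
  apply setIntegral_mono_on (hi1.sub iD).abs (iD'.add iK) hVm
  intro x hx
  have h0 := (h.psh j).dH_nonneg h.isOpen hx
  have e1 : |f x * dH (u j) x - D.indicator (fun _ => f 0) x * dH (u j) x| ≤
      D.indicator (fun _ => ε) x * dH (u j) x + K.indicator (fun _ => B) x * dH (u j) x := by
    rw [← sub_mul, abs_mul, abs_of_nonneg h0, ← add_mul]
    exact mul_le_mul_of_nonneg_right (hest x hx) h0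
  exact e1

/-- weak convergence -/
theorem Dec.weak (h : Dec V u) {f : (Fin (m + 2) → ℂ) → ℝ} (hf : Continuous f)
    (hfc : HasCompactSupport f) (hfV : tsupport f ⊆ V) :
    Tendsto (fun j => ∫ x in V, f x * dH (u j) x) atTop (𝓝 (f 0 * (c0 (m + 2)).toReal)) := by
  set c : ℝ := (c0 (m + 2)).toReal with hc
  have hc0 : 0 ≤ c := ENNReal.toReal_nonneg
  obtain ⟨B, hB⟩ : ∃ B : ℝ, ∀ x, |f x| ≤ B := by
    obtain ⟨B, hB⟩ := hfc.exists_bound_of_continuous hf
    exact ⟨B, fun x => by simpa using hB x⟩
  have hB0 : 0 ≤ B := (abs_nonneg _).trans (hB 0)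
  -- the data
  have data : ∀ ε : ℝ, 0 < ε → ∃ D K : Set (Fin (m + 2) → ℂ), IsCompact D ∧ D ⊆ V ∧ IsCompact K ∧
      K ⊆ V ∧ (∀ x ∈ V, |f x - D.indicator (fun _ => f 0) x| ≤
        D.indicator (fun _ => ε) x + K.indicator (fun _ => B) x) ∧
      Tendsto (fun j => ∫ x in K, dH (u j) x) atTop (𝓝 0) ∧
      Tendsto (fun j => f 0 * ∫ x in D, dH (u j) x) atTop (𝓝 (f 0 * c)) ∧
      ∀ᶠ j in atTop, ∫ x in D, dH (u j) x ≤ c + 1 := by
    intro ε hε
    have hlimK : ∀ K : Set (Fin (m + 2) → ℂ), IsCompact K → K ⊆ V →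
        (0 : Fin (m + 2) → ℂ) ∉ K → Tendsto (fun j => ∫ x in K, dH (u j) x) atTop (𝓝 0) := by
      intro K hK hKV hK0
      have h1 := (ENNReal.tendsto_toReal ENNReal.zero_ne_top).comp (h.cover hK hKV hK0)
      simp only [ENNReal.toReal_zero] at h1
      refine h1.congr ?_
      intro j
      rw [integral_eq_toReal h hK hKV j]
      rfl
    by_cases h0 : (0 : Fin (m + 2) → ℂ) ∈ V
    · -- the origin belongs to V
      have hU : V ∩ {x : Fin (m + 2) → ℂ | |f x - f 0| < ε} ∈ 𝓝 (0 : Fin (m + 2) → ℂ) := by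
        apply inter_mem (h.isOpen.mem_nhds h0)
        exact (isOpen_lt ((hf.sub continuous_const).abs) continuous_const).mem_nhds
          (by simpa using hε)
      obtain ⟨T, hT, hTs⟩ := exists_fp_subset hU
      set D : Set (Fin (m + 2) → ℂ) := {x | fp 0 x ≤ T / 2} with hD
      set K : Set (Fin (m + 2) → ℂ) := tsupport f ∩ {x | T / 2 ≤ fp 0 x} with hK
      have hDT : D ⊆ {x | fp 0 x ≤ T} := fun x hx => by
        have : fp 0 x ≤ T / 2 := hx
        show fp 0 x ≤ T
        linarith
      have hDc : IsCompact D := isCompact_fp 0 _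
      have hDV : D ⊆ V := fun x hx => (hTs (hDT hx)).1
      have hKc : IsCompact K :=
        IsCompact.inter_right hfc (isClosed_le continuous_const (continuous_fp 0))
      have hKV : K ⊆ V := Set.inter_subset_left.trans hfV
      have hTV : {x | fp 0 x ≤ T} ⊆ V := fun x hx => (hTs hx).1
      have hst : Tendsto (fun j => ∫ x in D, dH (u j) x) atTop (𝓝 c) := by
        have h1 := (ENNReal.tendsto_toReal (c0_ne_top (m + 2))).comp
          (h.step2 (b := T / 2) (T := T) (by positivity) (by linarith) hTV)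
        refine h1.congr ?_
        intro j
        rw [integral_eq_toReal h hDc hDV j]
        rfl
      refine ⟨D, K, hDc, hDV, hKc, hKV, ?_, hlimK K hKc hKV ?_, hst.const_mul _, ?_⟩
      · intro x hx
        by_cases hxD : x ∈ D
        · rw [Set.indicator_of_mem hxD, Set.indicator_of_mem hxD]
          have h2 : |f x - f 0| < ε := (hTs (hDT hxD)).2
          have h3 : 0 ≤ K.indicator (fun _ => B) x := Set.indicator_nonneg (fun _ _ => hB0) x
          linarith
        · rw [Set.indicator_of_notMem hxD, Set.indicator_of_notMem hxD, sub_zero, zero_add]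
          by_cases hxK : x ∈ tsupport f
          · have h4 : x ∈ K := ⟨hxK, by
              have : ¬ fp 0 x ≤ T / 2 := hxD
              push Not at this
              exact this.le⟩
            rw [Set.indicator_of_mem h4]
            exact hB x
          · rw [image_eq_zero_of_notMem_tsupport hxK, abs_zero]
            exact Set.indicator_nonneg (fun _ _ => hB0) x
      · intro h5
        have h6 : T / 2 ≤ fp 0 (0 : Fin (m + 2) → ℂ) := h5.2
        rw [fp_self] at h6
        linarith
      · exact (hst.eventually (gt_mem_nhds (show c < c + 1 by linarith))).mono fun j hj => hj.le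
    · -- the origin does not belong to V
      have hf0 : f 0 = 0 := image_eq_zero_of_notMem_tsupport fun h1 => h0 (hfV h1)
      refine ⟨∅, tsupport f, isCompact_empty, Set.empty_subset _, hfc, hfV, ?_,
        hlimK _ hfc hfV (fun h1 => h0 (hfV h1)), ?_, ?_⟩
      · intro x _
        simp only [Set.indicator_empty, sub_zero, zero_add]
        by_cases hxK : x ∈ tsupport f
        · rw [Set.indicator_of_mem hxK]
          exact hB x
        · rw [image_eq_zero_of_notMem_tsupport hxK, abs_zero]
          exact Set.indicator_nonneg (fun _ _ => hB0) x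
      · simp [hf0]
      · simp only [Measure.restrict_empty, integral_zero_measure]
        exact Filter.Eventually.of_forall fun _ => by linarith
  rw [Metric.tendsto_atTop]
  intro δ hδ
  obtain ⟨D, K, hD, hDV, hK, hKV, hest, hlimK, hlimD, hbd⟩ := data (δ / (4 * (c + 1)))
    (by positivity)
  have h1 : ∀ᶠ j in atTop, B * ∫ x in K, dH (u j) x < δ / 4 := by
    have := hlimK.const_mul B
    rw [mul_zero] at this
    exact this.eventually (gt_mem_nhds (by positivity))
  have h2 : ∀ᶠ j in atTop, |f 0 * (∫ x in D, dH (u j) x) - f 0 * c| < δ / 4 := by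
    have := (Metric.tendsto_nhds.mp hlimD) (δ / 4) (by positivity)
    simpa [Real.dist_eq] using this
  obtain ⟨N, hN⟩ := eventually_atTop.mp ((h1.and h2).and hbd)
  refine ⟨N, ?_⟩
  intro j hj
  obtain ⟨⟨h3, h4⟩, h5⟩ := hN j hj
  have h6 := test_estimate h hf hfc hfV hD hDV hK hKV (j := j) hest
  have h7 : δ / (4 * (c + 1)) * (∫ x in D, dH (u j) x) ≤ δ / 4 := by
    calc δ / (4 * (c + 1)) * (∫ x in D, dH (u j) x) ≤ δ / (4 * (c + 1)) * (c + 1) := by gcongr
      _ = δ / 4 := by field_simp
  rw [Real.dist_eq]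
  calc |(∫ x in V, f x * dH (u j) x) - f 0 * c|
      ≤ |(∫ x in V, f x * dH (u j) x) - f 0 * ∫ x in D, dH (u j) x| +
        |f 0 * (∫ x in D, dH (u j) x) - f 0 * c| := abs_sub_le _ _ _
    _ < δ := by linarith

end Pool.Agent.Helper853.Zm
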