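import Pool.Agent.Helper853.Zm.Defs
import Pool.Agent.Helper853.Zm.Weak

open scoped Topology ContDiff ComplexOrder ENNReal ComplexConjugate
open MeasureTheory Filter

namespace Pool.Agent.Helper853.Zm

variable {n : ℕ}

lemma maDensity_zm (u : (Fin n → ℂ) → ℝ) (x : Fin n → ℂ) :
    Zm.maDensity u x = kn n * dH u x := rfl

/-- the local sub-mean value property -/
lemma subMean_of_isPshOn {V : Set (Fin n → ℂ)} {u : (Fin n → ℂ) → ℝ} (hc : ContinuousOn u V)
    (h : IsPshOn V fun x => (u x : EReal)) (a b : Fin n → ℂ)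
    (hab : ∀ t : ℂ, ‖t‖ ≤ 1 → a + t • b ∈ V) : u a ≤ (2 * Real.pi)⁻¹ *
    ∫ θ in (0 : ℝ)..(2 * Real.pi), u (a + Complex.exp (θ * Complex.I) • b) := by
  have hcc : Continuous fun θ : ℝ => u (a + Complex.exp (θ * Complex.I) • b) := by
    apply hc.comp_continuous (continuous_circ a b)
    intro θ
    apply hab
    rw [Complex.norm_exp_ofReal_mul_I]
  obtain ⟨M, hM⟩ := (isCompact_Icc (a := (0 : ℝ)) (b := 2 * Real.pi)).image hcc |>.bddBelow
  have h1 := h.2.2.2 a b M hab
  have h2 : ∫ θ in (0 : ℝ)..(2 * Real.pi),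
      (max ((u (a + Complex.exp (θ * Complex.I) • b) : ℝ) : EReal) (M : EReal)).toReal =
      ∫ θ in (0 : ℝ)..(2 * Real.pi), u (a + Complex.exp (θ * Complex.I) • b) := by
    apply intervalIntegral.integral_congr
    intro θ hθ
    rw [Set.uIcc_of_le (by positivity)] at hθ
    have h3 : M ≤ u (a + Complex.exp (θ * Complex.I) • b) := hM ⟨θ, hθ, rfl⟩
    simp only
    rw [max_eq_left (by exact_mod_cast h3), EReal.toReal_coe]
  rw [h2] at h1
  exact EReal.coe_le_coe_iff.mp h1

/-- A smooth function with the sub-mean value property on small discs has nonnegative Levi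
form. -/
theorem lap2_nonneg_local {V : Set (Fin n → ℂ)} (hV : IsOpen V) {u : (Fin n → ℂ) → ℝ}
    (hc : ContinuousOn u V)
    (h : ∀ a b : Fin n → ℂ, (∀ t : ℂ, ‖t‖ ≤ 1 → a + t • b ∈ V) → u a ≤ (2 * Real.pi)⁻¹ *
      ∫ θ in (0 : ℝ)..(2 * Real.pi), u (a + Complex.exp (θ * Complex.I) • b))
    {a : Fin n → ℂ} (ha : a ∈ V) (hu : ContDiffAt ℝ 2 u a) (b : Fin n → ℂ) :
    0 ≤ lap2 u a b := by
  by_contra hneg
  push Not at hneg
  set B := fderiv ℝ (fderiv ℝ u) a with hB
  set D := fderiv ℝ u a with hD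
  set q := -lap2 u a b with hq
  have hqpos : 0 < q := by rw [hq]; linarith
  set ε : ℝ := q / (8 * (‖b‖ ^ 2 + 1)) with hε
  have hεpos : 0 < ε := by positivity
  obtain ⟨δ₁, hδ₁, hT⟩ := taylor2 hu hεpos
  obtain ⟨δ₂, hδ₂, hVδ⟩ := Metric.mem_nhds_iff.mp (hV.mem_nhds ha)
  set δ : ℝ := min δ₁ δ₂ with hδdef
  have hδ : 0 < δ := lt_min hδ₁ hδ₂
  -- choose small t
  set t : ℝ := δ / (2 * (‖b‖ + 1)) with ht
  have htpos : 0 < t := by positivity
  have htb : t * ‖b‖ < δ := by
    rw [ht, div_mul_eq_mul_div, div_lt_iff₀ (by positivity)]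
    nlinarith [norm_nonneg b]
  have hdisc : ∀ z : ℂ, ‖z‖ ≤ 1 → a + z • (t • b) ∈ V := by
    intro z hz
    apply hVδ
    rw [Metric.mem_ball, dist_eq_norm, add_sub_cancel_left, norm_smul, norm_smul,
      Real.norm_of_nonneg htpos.le]
    calc ‖z‖ * (t * ‖b‖) ≤ 1 * (t * ‖b‖) := by gcongr
      _ < δ₂ := by
        rw [one_mul]
        exact lt_of_lt_of_le htb (min_le_right _ _)
  have hs := h a (t • b) hdisc
  have hpi : (0 : ℝ) < 2 * Real.pi := by positivity
  -- pointwise upper bound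
  have hpt : ∀ θ : ℝ, u (a + Complex.exp (θ * Complex.I) • (t • b)) ≤
      u a + (t * Real.cos θ * D b + t * Real.sin θ * D (Complex.I • b)) +
        (1 / 2) * (t ^ 2 * Real.cos θ ^ 2 * B b b +
          2 * (t ^ 2 * (Real.sin θ * Real.cos θ)) * B b (Complex.I • b) +
          t ^ 2 * Real.sin θ ^ 2 * B (Complex.I • b) (Complex.I • b)) +
        ε * (t * ‖b‖) ^ 2 := by
    intro θ
    set h' := Complex.exp (θ * Complex.I) • (t • b) with hh'
    have hn : ‖h'‖ = t * ‖b‖ := by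
      rw [hh', norm_smul, Complex.norm_exp_ofReal_mul_I, one_mul, norm_smul, Real.norm_of_nonneg
        htpos.le]
    have h1 := hT h' (by rw [hn]; exact lt_of_lt_of_le htb (min_le_left _ _))
    rw [hn] at h1
    have h2 := (abs_le.mp h1).2
    have h3 : h' = (t * Real.cos θ) • b + (t * Real.sin θ) • (Complex.I • b) := circ_smul t θ b
    have h4 : D h' = t * Real.cos θ * D b + t * Real.sin θ * D (Complex.I • b) := by
      rw [h3, map_add, map_smul, map_smul]
      simp
    have h5 : B h' h' = t ^ 2 * Real.cos θ ^ 2 * B b b +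
          2 * (t ^ 2 * (Real.sin θ * Real.cos θ)) * B b (Complex.I • b) +
          t ^ 2 * Real.sin θ ^ 2 * B (Complex.I • b) (Complex.I • b) := by
      have hsym : B (Complex.I • b) b = B b (Complex.I • b) := snd_symm hu _ _
      rw [h3]
      simp only [map_add, map_smul, _root_.add_apply, _root_.smul_apply, smul_eq_mul, hsym]
      ring
    rw [← hD, h4, ← hB, h5] at h2
    linarith
  have hcc : Continuous fun θ : ℝ => u (a + Complex.exp (θ * Complex.I) • (t • b)) := by
    apply hc.comp_continuous (continuous_circ a _)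
    intro θ
    apply hdisc
    rw [Complex.norm_exp_ofReal_mul_I]
  have hint := intervalIntegral.integral_mono_on (μ := volume) (a := 0) (b := 2 * Real.pi) hpi.le
    (hcc.intervalIntegrable _ _) (g := fun θ => u a + (t * Real.cos θ * D b +
      t * Real.sin θ * D (Complex.I • b)) +
        (1 / 2) * (t ^ 2 * Real.cos θ ^ 2 * B b b +
          2 * (t ^ 2 * (Real.sin θ * Real.cos θ)) * B b (Complex.I • b) +
          t ^ 2 * Real.sin θ ^ 2 * B (Complex.I • b) (Complex.I • b)) +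
        ε * (t * ‖b‖) ^ 2) (by apply Continuous.intervalIntegrable; fun_prop)
    (fun θ _ => hpt θ)
  have hval : ∫ θ in (0 : ℝ)..(2 * Real.pi), (u a + (t * Real.cos θ * D b +
      t * Real.sin θ * D (Complex.I • b)) +
        (1 / 2) * (t ^ 2 * Real.cos θ ^ 2 * B b b +
          2 * (t ^ 2 * (Real.sin θ * Real.cos θ)) * B b (Complex.I • b) +
          t ^ 2 * Real.sin θ ^ 2 * B (Complex.I • b) (Complex.I • b)) +
        ε * (t * ‖b‖) ^ 2) = 2 * Real.pi * (u a) + Real.pi * t ^ 2 / 2 * lap2 u a b +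
          2 * Real.pi * (ε * (t * ‖b‖) ^ 2) := by
    have e : ∀ θ : ℝ, (u a + (t * Real.cos θ * D b +
      t * Real.sin θ * D (Complex.I • b)) +
        (1 / 2) * (t ^ 2 * Real.cos θ ^ 2 * B b b +
          2 * (t ^ 2 * (Real.sin θ * Real.cos θ)) * B b (Complex.I • b) +
          t ^ 2 * Real.sin θ ^ 2 * B (Complex.I • b) (Complex.I • b)) +
        ε * (t * ‖b‖) ^ 2) = (u a + ε * (t * ‖b‖) ^ 2) + (t * D b) * Real.cos θ +
          (t * D (Complex.I • b)) * Real.sin θ + (1 / 2 * t ^ 2 * B b b) * Real.cos θ ^ 2 +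
          (t ^ 2 * B b (Complex.I • b)) * (Real.sin θ * Real.cos θ) +
          (1 / 2 * t ^ 2 * B (Complex.I • b) (Complex.I • b)) * Real.sin θ ^ 2 := by
      intro θ; ring
    simp_rw [e]
    have i1 : ∀ c : ℝ, IntervalIntegrable (fun _ : ℝ => c) volume 0 (2 * Real.pi) :=
      fun c => intervalIntegrable_const
    have i2 : ∀ c : ℝ, IntervalIntegrable (fun θ => c * Real.cos θ) volume 0 (2 * Real.pi) :=
      fun c => (by fun_prop : Continuous fun θ => c * Real.cos θ).intervalIntegrable _ _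
    have i3 : ∀ c : ℝ, IntervalIntegrable (fun θ => c * Real.sin θ) volume 0 (2 * Real.pi) :=
      fun c => (by fun_prop : Continuous fun θ => c * Real.sin θ).intervalIntegrable _ _
    have i4 : ∀ c : ℝ, IntervalIntegrable (fun θ => c * Real.cos θ ^ 2) volume 0 (2 * Real.pi) :=
      fun c => (by fun_prop : Continuous fun θ => c * Real.cos θ ^ 2).intervalIntegrable _ _
    have i5 : ∀ c : ℝ, IntervalIntegrable (fun θ => c * (Real.sin θ * Real.cos θ)) volume 0
        (2 * Real.pi) :=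
      fun c => (by fun_prop : Continuous fun θ => c * (Real.sin θ * Real.cos θ)).intervalIntegrable
        _ _
    have i6 : ∀ c : ℝ, IntervalIntegrable (fun θ => c * Real.sin θ ^ 2) volume 0 (2 * Real.pi) :=
      fun c => (by fun_prop : Continuous fun θ => c * Real.sin θ ^ 2).intervalIntegrable _ _
    rw [intervalIntegral.integral_add (((((i1 _).add (i2 _)).add (i3 _)).add (i4 _)).add (i5 _))
        (i6 _),
      intervalIntegral.integral_add ((((i1 _).add (i2 _)).add (i3 _)).add (i4 _)) (i5 _),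
      intervalIntegral.integral_add (((i1 _).add (i2 _)).add (i3 _)) (i4 _),
      intervalIntegral.integral_add ((i1 _).add (i2 _)) (i3 _),
      intervalIntegral.integral_add (i1 _) (i2 _)]
    simp only [intervalIntegral.integral_const_mul, intervalIntegral.integral_const,
      integral_cos, integral_sin, integral_cos_sq, integral_sin_sq, integral_sin_mul_cos₁]
    simp only [Real.sin_two_pi, Real.sin_zero, Real.cos_two_pi, Real.cos_zero]
    unfold lap2
    rw [← hB]
    simp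
    ring
  rw [hval] at hint
  have h6 : (2 * Real.pi)⁻¹ * ∫ θ in (0 : ℝ)..(2 * Real.pi),
      u (a + Complex.exp (θ * Complex.I) • (t • b)) ≤
      (2 * Real.pi)⁻¹ * (2 * Real.pi * (u a) + Real.pi * t ^ 2 / 2 * lap2 u a b +
          2 * Real.pi * (ε * (t * ‖b‖) ^ 2)) :=
    mul_le_mul_of_nonneg_left hint (by positivity)
  have h7 : (2 * Real.pi)⁻¹ * (2 * Real.pi * (u a) + Real.pi * t ^ 2 / 2 * lap2 u a b +
          2 * Real.pi * (ε * (t * ‖b‖) ^ 2)) =
      u a + t ^ 2 / 4 * lap2 u a b + ε * (t * ‖b‖) ^ 2 := by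
    have := Real.pi_pos.ne'
    field_simp
    ring
  rw [h7] at h6
  have h8 := hs.trans h6
  have h9 : ε * ‖b‖ ^ 2 ≤ q / 8 := by
    rw [hε, div_mul_eq_mul_div, div_le_iff₀ (by positivity)]
    nlinarith [sq_nonneg ‖b‖]
  have h10 : 0 < t ^ 2 := by positivity
  have h11 : lap2 u a b = -q := by rw [hq]; ring
  rw [h11] at h8
  nlinarith

lemma sPsh_of_isSmoothPshOn {V : Set (Fin n → ℂ)} (hV : IsOpen V) {u : (Fin n → ℂ) → ℝ}
    (h : IsSmoothPshOn V u) : SPsh V u :=
  ⟨h.1, fun _ ha b => lap2_nonneg_local hV h.1.continuousOn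
    (subMean_of_isPshOn h.1.continuousOn h.2) ha
    ((h.1.contDiffAt (hV.mem_nhds ha)).of_le ENat.LEInfty.out) b⟩

variable {m : ℕ}

lemma dec_of_decreasesTo {V : Set (Fin (m + 2) → ℂ)} (hV : IsOpen V)
    {u : ℕ → (Fin (m + 2) → ℂ) → ℝ} (h : DecreasesTo V u (phi m)) : Dec V u where
  isOpen := hV
  psh := fun j => sPsh_of_isSmoothPshOn hV (h.1 j)
  anti := h.2.1
  lim := by
    intro x hx hx0
    have h1 := h.2.2 x hx
    rw [phi_eq hx0] at h1
    exact EReal.tendsto_coe.mp h1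

lemma isPshOn_of_isPsh {Ω : Set (Fin n → ℂ)} {u : (Fin n → ℂ) → EReal} (h : IsPsh u)
    (hne : ∃ z ∈ Ω, u z ≠ ⊥) : IsPshOn Ω u :=
  ⟨hne, fun z _ => h.2.1 z, h.1.upperSemicontinuousOn Ω, fun a b M _ => h.2.2 a b M⟩

lemma isSmoothPshOn_vc {V : Set (Fin (m + 2) → ℂ)} (hne : V.Nonempty) (k : ℕ) :
    IsSmoothPshOn V (vc m k) := by
  refine ⟨(contDiff_vc k).contDiffOn, ?_⟩
  apply isPshOn_of_isPsh (isPsh_of_subMean (contDiff_vc k).continuous (subMean_vc k))
  obtain ⟨z, hz⟩ := hne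
  exact ⟨z, hz, EReal.coe_ne_bot _⟩

lemma decreasesTo_vc {V : Set (Fin (m + 2) → ℂ)} (hne : V.Nonempty) :
    DecreasesTo V (vc m) (phi m) :=
  ⟨fun k => isSmoothPshOn_vc hne k, fun z _ => vc_antitone z, fun z _ => tendsto_phi z⟩

/-- the Monge-Ampere measure of the limit function -/
theorem hasMA_phi (Ω : Set (Fin (m + 2) → ℂ)) : HasMA Ω (phi m) (Measure.dirac 0) := by
  refine ⟨fun K _ _ => measure_lt_top _ _, ?_⟩
  intro V hV hVc _ _
  refine ⟨⟨vc m, decreasesTo_vc hVc.nonempty⟩, ?_⟩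
  intro u hu f hf hfc hfV
  have h := dec_of_decreasesTo hV hu
  have h1 := (h.weak hf hfc hfV).const_mul (kn (m + 2))
  have hkn : kn (m + 2) * (c0 (m + 2)).toReal = 1 := by
    have h2 := congrArg ENNReal.toReal (kn_mul_c0 (m + 2))
    rw [ENNReal.toReal_mul, ENNReal.toReal_ofReal (kn_pos _).le, ENNReal.toReal_one] at h2
    exact h2
  have e1 : kn (m + 2) * (f 0 * (c0 (m + 2)).toReal) = f 0 := by
    calc kn (m + 2) * (f 0 * (c0 (m + 2)).toReal) =
        f 0 * (kn (m + 2) * (c0 (m + 2)).toReal) := by ring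
      _ = f 0 := by rw [hkn, mul_one]
  have e2 : ∫ z in V, f z ∂(Measure.dirac (0 : Fin (m + 2) → ℂ)) = f 0 := by
    classical
    rw [setIntegral_dirac' hf.measurable.stronglyMeasurable _ hV.measurableSet]
    split_ifs with h0
    · rfl
    · exact (image_eq_zero_of_notMem_tsupport fun h1 => h0 (hfV h1)).symm
  rw [e1] at h1
  rw [e2]
  refine h1.congr ?_
  intro j
  rw [← integral_const_mul]
  congr 1
  ext z
  rw [maDensity_zm]
  ring

end Pool.Agent.Helper853.Zm
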