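import Pool.Agent.Helper853.Zm.LocalPsh
import Pool.Agent.Helper853.LelongNumber

open scoped Topology ContDiff ComplexOrder ENNReal ComplexConjugate
open MeasureTheory Filter

namespace Pool.Agent.Helper853.Zm

variable {m : ℕ}

lemma homog_xt_i1 (t : ℝ) : homog 0 (xt m t) i1 = 0 := by
  unfold i1
  rw [homog_succ_apply, xt_zero_apply]

lemma homog_xt_i2 (t : ℝ) : homog 0 (xt m t) i2 = (t : ℂ) := by
  unfold i2
  rw [homog_succ_apply]
  exact xt_one_apply t

/-- the values of the functions of the construction along the curve -/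
noncomputable def rr (m : ℕ) (t : ℝ) : ℕ → ℝ
  | 0 => 0
  | k + 1 => rr m t k ^ 2 + ee m k * t

lemma PP_xt (t : ℝ) (k : ℕ) : PP m k (homog 0 (xt m t)) = ((rr m t k : ℝ) : ℂ) := by
  induction k with
  | zero =>
    rw [PP_zero]
    simp only [rr]
    rw [homog_xt_i1]
    simp
  | succ k ih =>
    rw [PP_succ]
    unfold nextP
    rw [ih, homog_zero_apply, homog_xt_i2]
    simp only [rr, ex]
    push_cast
    ring

lemma rr_succ_pos {t : ℝ} (ht : 0 < t) (k : ℕ) :
    0 < rr m t (k + 1) := by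
  have := (good_all (m := m) k).2.2.2.1
  simp only [rr]
  positivity

lemma log_rr_mono {t : ℝ} (ht : 0 < t) {k l : ℕ} (hkl : k ≤ l) :
    1 / 2 ^ (k + 1) * Real.log (rr m t (k + 1)) ≤
      1 / 2 ^ (l + 1) * Real.log (rr m t (l + 1)) := by
  induction l, hkl using Nat.le_induction with
  | base => exact le_rfl
  | succ l hkl ih =>
    refine ih.trans ?_
    have hp := rr_succ_pos (m := m) ht l
    have he := (good_all (m := m) (l + 1)).2.2.2.1
    have h2 : rr m t (l + 1) ^ 2 ≤ rr m t (l + 1 + 1) := by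
      conv_rhs => unfold rr
      have : 0 ≤ ee m (l + 1) * t := by positivity
      linarith
    have h3 := Real.log_le_log (by positivity) h2
    rw [Real.log_pow] at h3
    push_cast at h3
    calc 1 / 2 ^ (l + 1) * Real.log (rr m t (l + 1))
        = 1 / 2 ^ (l + 1 + 1) * (2 * Real.log (rr m t (l + 1))) := by
          rw [pow_succ 2 (l + 1)]
          have : (2 : ℝ) ^ (l + 1) ≠ 0 := by positivity
          field_simp
      _ ≤ 1 / 2 ^ (l + 1 + 1) * Real.log (rr m t (l + 1 + 1)) := by gcongr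

lemma log_rr_ge {t : ℝ} (ht : 0 < t) (k : ℕ) :
    1 / 2 ^ (k + 1) * Real.log (ee m k) + 1 / 2 ^ (k + 1) * Real.log t ≤
      1 / 2 ^ (k + 1) * Real.log (rr m t (k + 1)) := by
  have he := (good_all (m := m) k).2.2.2.1
  have h2 : ee m k * t ≤ rr m t (k + 1) := by
    conv_rhs => unfold rr
    have : 0 ≤ rr m t k ^ 2 := by positivity
    linarith
  have h3 := Real.log_le_log (by positivity) h2
  rw [Real.log_mul he.ne' (by positivity)] at h3
  calc 1 / 2 ^ (k + 1) * Real.log (ee m k) + 1 / 2 ^ (k + 1) * Real.log t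
      = 1 / 2 ^ (k + 1) * (Real.log (ee m k) + Real.log t) := by ring
    _ ≤ _ := by gcongr

lemma vv_xt_ge {t : ℝ} (ht : 0 < t) (l : ℕ) :
    1 / 2 ^ (l + 1) * Real.log (rr m t (l + 1)) ≤ vv m (l + 1) (homog 0 (xt m t)) := by
  have hp := rr_succ_pos (m := m) ht l
  have hd := (good_all (m := m) (l + 1)).2.1
  have h2 : rr m t (l + 1) ^ 2 ≤ TT m (l + 1) (homog 0 (xt m t)) := by
    unfold TT
    rw [SS_eq, PP_xt, Complex.norm_real, Real.norm_of_nonneg hp.le]
    have h3 : 0 ≤ ∑ j : Fin (m + 1), ‖homog 0 (xt m t) j.succ.succ‖ ^ (2 * 2 ^ (l + 1)) :=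
      Finset.sum_nonneg fun j _ => by positivity
    have h4 := mul_nonneg hd.le (QQ_nonneg (l + 1) (homog 0 (xt m t)))
    linarith
  have h3 := Real.log_le_log (by positivity) h2
  rw [Real.log_pow] at h3
  push_cast at h3
  unfold vv
  calc 1 / 2 ^ (l + 1) * Real.log (rr m t (l + 1))
      = 1 / (2 * 2 ^ (l + 1)) * (2 * Real.log (rr m t (l + 1))) := by
        have : (2 : ℝ) ^ (l + 1) ≠ 0 := by positivity
        field_simp
    _ ≤ _ := by gcongr

/-- lower bound of the limit potential along the curve -/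
lemma Vc_xt_ge {t : ℝ} (ht : 0 < t) (k : ℕ) :
    1 / 2 ^ (k + 1) * Real.log (ee m k) + 1 / 2 ^ (k + 1) * Real.log t ≤ Vc m (xt m t) := by
  have hlim := vc_tendsto (m := m) (xt_ne (m := m) ht)
  apply ge_of_tendsto hlim
  filter_upwards [eventually_ge_atTop (k + 1)] with l hl
  obtain ⟨l, rfl⟩ : ∃ l', l = l' + 1 := ⟨l - 1, by omega⟩
  exact (log_rr_ge ht k).trans ((log_rr_mono ht (by omega)).trans (vv_xt_ge ht l))

lemma eucl_xt {t : ℝ} (ht : 0 < t) : Real.sqrt (∑ i, ‖xt m t i‖ ^ 2) = t := by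
  have : ∑ i, ‖xt m t i‖ ^ 2 = t ^ 2 := by
    rw [Finset.sum_eq_single 1]
    · rw [xt_one_apply, Complex.norm_real, Real.norm_of_nonneg ht.le]
    · intro j _ hj
      unfold xt
      rw [Pi.single_apply, if_neg hj]
      simp
    · simp
  rw [this, Real.sqrt_sq ht.le]

lemma eucl_pos {n : ℕ} {x : Fin n → ℂ} (hx : x ≠ 0) : 0 < ∑ i, ‖x i‖ ^ 2 := by
  obtain ⟨i, hi⟩ := Function.ne_iff.mp hx
  have h1 : 0 < ‖x i‖ ^ 2 := by
    have : 0 < ‖x i‖ := norm_pos_iff.mpr hi
    positivity
  exact lt_of_lt_of_le h1 (Finset.single_le_sum (f := fun i => ‖x i‖ ^ 2)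
    (fun i _ => by positivity) (Finset.mem_univ i))

lemma quotient_eq {x : Fin (m + 2) → ℂ} (hx : x ≠ 0) :
    phi m x / ((Real.log (Real.sqrt (∑ i, ‖x i‖ ^ 2)) : ℝ) : EReal) =
      ((Vc m x / Real.log (Real.sqrt (∑ i, ‖x i‖ ^ 2)) : ℝ) : EReal) := by
  rw [phi_eq hx, EReal.coe_div]

/-- the Lelong number of the limit function vanishes -/
theorem lelong0_phi : lelong0 (phi m) = 0 := by
  unfold lelong0
  apply le_antisymm
  · -- upper bound
    have key : ∀ c : ℝ, 0 < c → liminf (fun z : Fin (m + 2) → ℂ =>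
        phi m z / ((Real.log (Real.sqrt (∑ i, ‖z i‖ ^ 2)) : ℝ) : EReal)) (𝓝[≠] 0) ≤ (c : EReal) := by
      intro c hc
      apply liminf_le_of_frequently_le
      · -- choose the index
        obtain ⟨k, hk⟩ : ∃ k : ℕ, (1 / 2 : ℝ) ^ (k + 1) < c := by
          obtain ⟨k, hk⟩ := exists_pow_lt_of_lt_one hc (show (1 / 2 : ℝ) < 1 by norm_num)
          refine ⟨k, lt_of_le_of_lt ?_ hk⟩
          rw [pow_succ]
          have : (0 : ℝ) < (1 / 2) ^ k := by positivity
          linarith
        have hk' : (1 : ℝ) / 2 ^ (k + 1) < c := by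
          rwa [one_div, ← inv_pow, ← one_div]
        have hlog : Tendsto (fun t : ℝ => (c - 1 / 2 ^ (k + 1)) * Real.log t)
            (𝓝[>] 0) atBot :=
          Real.tendsto_log_nhdsGT_zero.const_mul_atBot (by linarith)
        have hev := hlog.eventually (eventually_le_atBot (1 / 2 ^ (k + 1) * Real.log (ee m k)))
        have hfr : ∃ᶠ t in 𝓝[>] (0 : ℝ), phi m (xt m t) /
            ((Real.log (Real.sqrt (∑ i, ‖xt m t i‖ ^ 2)) : ℝ) : EReal) ≤ (c : EReal) := by
          apply Filter.Eventually.frequently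
          filter_upwards [hev, Ioo_mem_nhdsGT (show (0 : ℝ) < 1 by norm_num)] with t h1 h2
          have ht : 0 < t := h2.1
          have hl : Real.log t < 0 := Real.log_neg ht h2.2
          rw [quotient_eq (xt_ne ht), eucl_xt ht, EReal.coe_le_coe_iff,
            div_le_iff_of_neg hl]
          have h3 := Vc_xt_ge (m := m) ht k
          linarith
        exact tendsto_xt.frequently hfr
      · isBoundedDefault
    apply EReal.le_of_forall_lt_iff_le.mp
    intro z hz
    exact key z (by exact_mod_cast hz)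
  · -- lower bound
    apply le_liminf_of_le
    · isBoundedDefault
    · obtain ⟨r, hr, hnear⟩ := Vc_near (m := m) 0
      have h1 : ∀ᶠ x in 𝓝[≠] (0 : Fin (m + 2) → ℂ), ‖x‖ ≤ r := by
        apply mem_nhdsWithin_of_mem_nhds
        filter_upwards [Metric.closedBall_mem_nhds (0 : Fin (m + 2) → ℂ) hr] with x hx
        simpa using hx
      have h2 : ∀ᶠ x in 𝓝[≠] (0 : Fin (m + 2) → ℂ), ∑ i, ‖x i‖ ^ 2 < 1 := by
        apply mem_nhdsWithin_of_mem_nhds
        have hc : Continuous fun x : Fin (m + 2) → ℂ => ∑ i, ‖x i‖ ^ 2 := by fun_prop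
        exact (isOpen_lt hc continuous_const).mem_nhds (by simp)
      filter_upwards [h1, h2, self_mem_nhdsWithin] with x hx1 hx2 hx0
      have hx0' : x ≠ 0 := hx0
      rw [quotient_eq hx0']
      have h3 := hnear x hx0' hx1
      have h4 : Real.log (Real.sqrt (∑ i, ‖x i‖ ^ 2)) ≤ 0 := by
        apply Real.log_nonpos (Real.sqrt_nonneg _)
        exact Real.sqrt_le_one.mpr hx2.le
      exact_mod_cast div_nonneg_of_nonpos h3 h4

end Pool.Agent.Helper853.Zm
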