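import Pool.Agent.Helper853.Zm.Chart

open scoped Topology ContDiff ComplexOrder ENNReal ComplexConjugate
open MeasureTheory Filter

namespace Pool.Agent.Helper853.Zm

variable {m : ℕ}

lemma tendsto_const_div_pow (c : ℝ) : Tendsto (fun l : ℕ => c / 2 ^ l) atTop (𝓝 0) := by
  have := (tendsto_pow_atTop_nhds_zero_of_lt_one (r := (1 / 2 : ℝ)) (by norm_num)
    (by norm_num)).const_mul c
  simp only [mul_zero] at this
  refine this.congr ?_
  intro l
  rw [one_div, inv_pow]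
  rfl

/-- uniform convergence away from the origin -/
lemma vc_unif {r δ : ℝ} (hr : 0 < r) (hδ : 0 < δ) :
    ∃ N, ∀ k ≥ N, ∀ x : Fin (m + 2) → ℂ, r ≤ ‖x‖ → |vc m k x - Vc m x| ≤ δ := by
  obtain ⟨l, hl⟩ := exists_nat_one_div_lt hr
  obtain ⟨N, hN⟩ := eventually_atTop.mp
    ((tendsto_const_div_pow (cc m + Real.log (m + 4))).eventually (gt_mem_nhds hδ))
  refine ⟨max l N, ?_⟩
  intro k hk x hx
  have h1 : (l : ℝ) ≤ k := by exact_mod_cast (le_max_left l N).trans hk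
  have h2 : (1 : ℝ) / ((k : ℝ) + 1) ≤ 1 / ((l : ℝ) + 1) := by gcongr
  exact (vc_close (h2.trans (hl.le.trans hx))).trans (hN k ((le_max_right l N).trans hk)).le

lemma hc_unif {r δ : ℝ} (hr : 0 < r) (hδ : 0 < δ) :
    ∃ N, ∀ k ≥ N, ∀ x : Fin (m + 2) → ℂ, r ≤ ‖x‖ → |hc m k x - Vc m x| ≤ δ := by
  obtain ⟨l, hl⟩ := exists_nat_one_div_lt hr
  obtain ⟨N, hN⟩ := eventually_atTop.mp
    ((tendsto_const_div_pow (cc m)).eventually (gt_mem_nhds hδ))
  refine ⟨max l N, ?_⟩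
  intro k hk x hx
  have h1 : (l : ℝ) ≤ k := by exact_mod_cast (le_max_left l N).trans hk
  have h2 : (1 : ℝ) / ((k : ℝ) + 1) ≤ 1 / ((l : ℝ) + 1) := by gcongr
  exact (hc_close (h2.trans (hl.le.trans hx))).trans (hN k ((le_max_right l N).trans hk)).le

/-- the limit is continuous off the origin -/
lemma continuousOn_Vc : ContinuousOn (Vc m) {0}ᶜ := by
  intro x hx
  apply ContinuousAt.continuousWithinAt
  have hx0 : 0 < ‖x‖ := norm_pos_iff.mpr hx
  have hU : {y : Fin (m + 2) → ℂ | ‖x‖ / 2 < ‖y‖} ∈ 𝓝 x :=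
    (isOpen_lt continuous_const continuous_norm).mem_nhds (show ‖x‖ / 2 < ‖x‖ by linarith)
  have hun : TendstoUniformlyOn (vc m) (Vc m) atTop {y : Fin (m + 2) → ℂ | ‖x‖ / 2 < ‖y‖} := by
    rw [Metric.tendstoUniformlyOn_iff]
    intro ε hε
    obtain ⟨N, hN⟩ := vc_unif (m := m) (show 0 < ‖x‖ / 2 by positivity)
      (show 0 < ε / 2 by positivity)
    filter_upwards [eventually_ge_atTop N] with k hk y hy
    rw [dist_comm, Real.dist_eq]
    have := hN k hk y (le_of_lt hy)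
    linarith
  have h1 : ContinuousOn (Vc m) {y : Fin (m + 2) → ℂ | ‖x‖ / 2 < ‖y‖} :=
    hun.continuousOn (Filter.Frequently.of_forall fun k => (contDiff_vc k).continuous.continuousOn)
  exact h1.continuousAt hU

/-- the masses of the approximants away from the origin tend to zero -/
lemma mass_away {r : ℝ} (hr : 0 < r) {η : ℝ} (hη : 0 < η) (hη1 : η ≤ 1) :
    ∃ N, ∀ j ≥ N, ∫⁻ x in {x : Fin (m + 2) → ℂ | r ≤ ‖x‖}, ENNReal.ofReal (dH (vc m j) x) ≤
      ENNReal.ofReal (η * 2 ^ (m + 2)) *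
        ∫⁻ x : Fin (m + 2) → ℂ, ENNReal.ofReal (dH fsPot x) := by
  -- the constant c₀
  obtain ⟨k₁, hk₁⟩ := exists_nat_one_div_lt hr
  obtain ⟨C₁, hC₁⟩ := fs_sub_le_Vc (m := m) k₁
  set c₀ : ℝ := C₁ + 2 with hc₀
  -- the radius r₁
  obtain ⟨r₂, hr₂, hnear₂⟩ := Vc_near (m := m) (-c₀ - 2)
  set r₁ : ℝ := min r₂ (r / 2) with hr₁
  have hr₁pos : 0 < r₁ := lt_min hr₂ (by positivity)
  have hr₁r : r₁ < r := by
    have : r₁ ≤ r / 2 := min_le_right _ _
    linarith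
  have hnear : ∀ x : Fin (m + 2) → ℂ, x ≠ 0 → ‖x‖ ≤ r₁ →
      Vc m x + 2 ≤ fsPot x - c₀ := by
    intro x hx hxr
    have h2 := hnear₂ x hx (hxr.trans (min_le_left _ _))
    have h5 : 0 ≤ fsPot x := by
      unfold fsPot
      have : 0 ≤ Real.log (1 + ∑ j, ‖x j‖ ^ 2) := Real.log_nonneg (by
        have : 0 ≤ ∑ j, ‖x j‖ ^ 2 := Finset.sum_nonneg fun j _ => by positivity
        linarith)
      positivity
    linarith
  -- the index k
  obtain ⟨N₁, hN₁⟩ := hc_unif (m := m) (show 0 < r₁ / 2 by positivity)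
    (show 0 < η / 8 by positivity)
  obtain ⟨N₂, hN₂⟩ := vc_unif (m := m) (show 0 < r₁ / 2 by positivity)
    (show 0 < η / 8 by positivity)
  obtain ⟨k₀, hk₀⟩ := exists_nat_one_div_lt (show 0 < r₁ / 2 by positivity)
  set k := max N₁ k₀ with hk
  have hkk : (k₀ : ℝ) ≤ k := by exact_mod_cast le_max_right N₁ k₀
  have hle : (1 : ℝ) / ((k : ℝ) + 1) ≤ 1 / ((k₀ : ℝ) + 1) := by gcongr
  refine ⟨N₂, ?_⟩
  intro j hj
  have hhc : ∀ x : Fin (m + 2) → ℂ, r₁ / 2 ≤ ‖x‖ → |hc m k x - Vc m x| ≤ η / 8 :=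
    fun x hx => hN₁ k (le_max_left _ _) x hx
  have hNc : ∀ x : Fin (m + 2) → ℂ, r₁ / 2 ≤ ‖x‖ → |vc m j x - Vc m x| ≤ η / 8 :=
    fun x hx => hN₂ j hj x hx
  obtain ⟨Ca, hCa⟩ := hc_sub_fs_le (m := m) k
  obtain ⟨Cb, hCb⟩ := fs_sub_le_hc (m := m) k
  obtain ⟨B, hB⟩ := vc_sub_fs (m := m) j
  exact small_mass (m := m + 1) (uF := fsPot) (h := hc m k)
    (u := vc m j) sPsh_fsPot fsPot_tendsto (sPsh_hc k) (det_hc k)
    (hc_atBot k) (Ch := max Ca Cb)
    (fun x hx => (hCa x hx).trans (by linarith [le_max_left Ca Cb])) hr₁pos hr₁r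
    (fun x hx => by
      have := hCb x (hle.trans (hk₀.le.trans hx))
      linarith [le_max_right Ca Cb])
    (sPsh_vc j) (Cu := B) hB
    (c₀ := c₀) hη hη1
    (fun x hx => by
      have h2 := hC₁ x (hk₁.le.trans hx)
      have h3 := (abs_le.mp (hhc x (by linarith))).1
      linarith)
    (fun x hx => by
      have h2 := (abs_le.mp (hhc x (by linarith))).2
      have h3 := (abs_le.mp (hNc x (by linarith))).1
      linarith)
    (fun x hx hx' => by
      have hx0 : x ≠ 0 := by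
        rintro rfl
        simp at hx
        linarith
      have h2 := hnear x hx0 hx'
      have h3 := (abs_le.mp (hhc x hx)).2
      linarith)
    (fun x hx hx' => by
      have h2 := (abs_le.mp (hhc x hx)).1
      have h3 := (abs_le.mp (hNc x hx)).2
      linarith)

/-- the total mass of the Fubini-Study potential -/
noncomputable def c0 (n : ℕ) : ℝ≥0∞ := ∫⁻ x : Fin n → ℂ, ENNReal.ofReal (dH fsPot x)

lemma kn_mul_c0 (n : ℕ) : ENNReal.ofReal (kn n) * c0 n = 1 := kn_fs n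

lemma c0_ne_top (n : ℕ) : c0 n ≠ ⊤ := by
  intro h
  have := kn_mul_c0 n
  rw [h, ENNReal.mul_top (by simpa using kn_pos n)] at this
  exact absurd this (by simp)

lemma c0_ne_zero (n : ℕ) : c0 n ≠ 0 := by
  intro h
  have := kn_mul_c0 n
  rw [h, mul_zero] at this
  exact absurd this (by simp)

lemma total_mass_vc' (k : ℕ) : ∫⁻ x, ENNReal.ofReal (dH (vc m k) x) = c0 (m + 2) :=
  total_mass_vc k

/-- the masses away from the origin tend to zero, second form -/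
lemma mass_away' {r : ℝ} (hr : 0 < r) :
    Tendsto (fun j => ∫⁻ x in {x : Fin (m + 2) → ℂ | r ≤ ‖x‖}, ENNReal.ofReal (dH (vc m j) x))
      atTop (𝓝 0) := by
  rw [ENNReal.tendsto_atTop_zero]
  intro ε hε
  -- choose η
  obtain ⟨η, hη, hη1, hηε⟩ : ∃ η : ℝ, 0 < η ∧ η ≤ 1 ∧
      ENNReal.ofReal (η * 2 ^ (m + 2)) * c0 (m + 2) ≤ ε := by
    have h1 : Tendsto (fun η : ℝ => ENNReal.ofReal (η * 2 ^ (m + 2)) * c0 (m + 2)) (𝓝[>] 0)
        (𝓝 0) := by
      have h2 : Tendsto (fun η : ℝ => ENNReal.ofReal (η * 2 ^ (m + 2))) (𝓝[>] 0) (𝓝 0) := by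
        have h3 : Tendsto (fun η : ℝ => η * 2 ^ (m + 2)) (𝓝[>] 0) (𝓝 0) := by
          have hc : Continuous fun η : ℝ => η * 2 ^ (m + 2) := by fun_prop
          have := hc.tendsto 0
          simp only [zero_mul] at this
          exact this.mono_left nhdsWithin_le_nhds
        have h4 := ENNReal.tendsto_ofReal h3
        simpa using h4
      have h5 := ENNReal.Tendsto.mul_const (b := c0 (m + 2)) h2 (Or.inr (c0_ne_top _))
      simpa using h5
    have h2 := h1.eventually (ge_mem_nhds hε)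
    have h3 := h2.and (Ioo_mem_nhdsGT (show (0 : ℝ) < 1 by norm_num))
    obtain ⟨η, h4, h5⟩ := h3.exists
    exact ⟨η, h5.1, h5.2.le, h4⟩
  obtain ⟨N, hN⟩ := mass_away (m := m) hr hη hη1
  exact ⟨N, fun j hj => (hN j hj).trans hηε⟩

end Pool.Agent.Helper853.Zm
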