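import Mathlib

open scoped Topology ContDiff
open MeasureTheory Filter

namespace Pool.Agent.Helper853.Zm

/-- The open Euclidean unit ball of `ℂ^n`. -/
def unitBall (n : ℕ) : Set (Fin n → ℂ) := {z | ∑ i, ‖z i‖ ^ 2 < 1}

/-- `u : ℂ^n → [-∞, ∞]` is plurisubharmonic on the open set `Ω`: on `Ω` it is not identically
`-∞`, nowhere `+∞`, upper semicontinuous, and at the centre `a` of every closed complex disc
`{a + t b : |t| ≤ 1}` contained in `Ω` it is at most its mean over the boundary circle (written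
as: at most the mean of `max u M`, for every real `M`). -/
def IsPshOn {n : ℕ} (Ω : Set (Fin n → ℂ)) (u : (Fin n → ℂ) → EReal) : Prop :=
  (∃ z ∈ Ω, u z ≠ ⊥) ∧ (∀ z ∈ Ω, u z ≠ ⊤) ∧ UpperSemicontinuousOn u Ω ∧
    ∀ (a b : Fin n → ℂ) (M : ℝ), (∀ t : ℂ, ‖t‖ ≤ 1 → a + t • b ∈ Ω) →
      u a ≤ (((2 * Real.pi)⁻¹ * ∫ θ in (0 : ℝ)..(2 * Real.pi),
        (max (u (a + Complex.exp (θ * Complex.I) • b)) (M : EReal)).toReal : ℝ) : EReal)

/-- `u` is a smooth plurisubharmonic function on `V`. -/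
def IsSmoothPshOn {n : ℕ} (V : Set (Fin n → ℂ)) (u : (Fin n → ℂ) → ℝ) : Prop :=
  ContDiffOn ℝ ∞ u V ∧ IsPshOn V fun z => (u z : EReal)

/-- `(u_j)` is a sequence of smooth plurisubharmonic functions on `V` decreasing to `φ` on `V`. -/
def DecreasesTo {n : ℕ} (V : Set (Fin n → ℂ)) (u : ℕ → (Fin n → ℂ) → ℝ)
    (φ : (Fin n → ℂ) → EReal) : Prop :=
  (∀ j, IsSmoothPshOn V (u j)) ∧ (∀ z ∈ V, Antitone fun j => u j z) ∧
    ∀ z ∈ V, Tendsto (fun j => (u j z : EReal)) atTop (𝓝 (φ z))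

/-- The Wirtinger derivative `∂f/∂z_i`. -/
noncomputable def dz {n : ℕ} (i : Fin n) (f : (Fin n → ℂ) → ℂ) (x : Fin n → ℂ) : ℂ :=
  (1 / 2) * (fderiv ℝ f x (Pi.single i 1) - Complex.I * fderiv ℝ f x (Pi.single i Complex.I))

/-- The Wirtinger derivative `∂f/∂\bar z_i`. -/
noncomputable def dzbar {n : ℕ} (i : Fin n) (f : (Fin n → ℂ) → ℂ) (x : Fin n → ℂ) : ℂ :=
  (1 / 2) * (fderiv ℝ f x (Pi.single i 1) + Complex.I * fderiv ℝ f x (Pi.single i Complex.I))

/-- The complex Hessian matrix `(∂²u/∂z_i∂\bar z_j)`. -/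
noncomputable def cHess {n : ℕ} (u : (Fin n → ℂ) → ℝ) (x : Fin n → ℂ) : Matrix (Fin n) (Fin n) ℂ :=
  Matrix.of fun i j => dz i (dzbar j fun y => (u y : ℂ)) x

/-- The density of `(dd^c u)^n` with respect to Lebesgue measure on `ℂ^n`, for smooth `u`, where
`dd^c = (i/π) ∂∂bar`, so that `dd^c |z|^2 = ∑ (i/π) dz_j ∧ d\bar z_j`; it is
`n! (2/π)^n det (∂²u/∂z_i∂\bar z_j)`. -/
noncomputable def maDensity {n : ℕ} (u : (Fin n → ℂ) → ℝ) (x : Fin n → ℂ) : ℝ :=
  n.factorial * (2 / Real.pi) ^ n * (cHess u x).det.re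

/-- The Monge-Ampere measure `(dd^c φ)^n` is well defined on the open set `Ω` and equal to `μ`:
`μ` is a Radon measure on `Ω` (finite on compact subsets), and for every relatively compact
subdomain `V` of `Ω` and every sequence of smooth psh functions on `V` decreasing to `φ` on `V`
(there is at least one such sequence), the measures `(dd^c u_j)^n` converge weakly to `μ` on `V`. -/
def HasMA {n : ℕ} (Ω : Set (Fin n → ℂ)) (φ : (Fin n → ℂ) → EReal)
    (μ : Measure (Fin n → ℂ)) : Prop :=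
  (∀ K, IsCompact K → K ⊆ Ω → μ K < ⊤) ∧
    ∀ V : Set (Fin n → ℂ), IsOpen V → IsConnected V → IsCompact (closure V) → closure V ⊆ Ω →
      (∃ u, DecreasesTo V u φ) ∧
      ∀ u, DecreasesTo V u φ → ∀ f : (Fin n → ℂ) → ℝ, Continuous f → HasCompactSupport f →
        tsupport f ⊆ V →
          Tendsto (fun j => ∫ z in V, f z * maDensity (u j) z) atTop (𝓝 (∫ z in V, f z ∂μ))

/-- The Lelong number of `φ` at `0`: the lower limit of `φ(z) / log |z|` as `z → 0`, `z ≠ 0`,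
where `|z|` is the Euclidean norm. -/
noncomputable def lelong0 {n : ℕ} (φ : (Fin n → ℂ) → EReal) : EReal :=
  liminf (fun z => φ z / ((Real.log (Real.sqrt (∑ i, ‖z i‖ ^ 2)) : ℝ) : EReal)) (𝓝[≠] 0)

end Pool.Agent.Helper853.Zm
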