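import Pool.Agent.Helper853.Zm.Construct

open scoped Topology ContDiff ComplexOrder ENNReal ComplexConjugate
open MeasureTheory Filter

namespace Pool.Agent.Helper853.Zm

variable {m : ℕ}

/-- the sum of squares `S_k` -/
noncomputable def SS (m : ℕ) (k : ℕ) (x : Fin (m + 3) → ℂ) : ℝ :=
  sumSq (Fk (PP m k) k) x

/-- the power sum `Q_k` -/
noncomputable def QQ (k : ℕ) (x : Fin (m + 3) → ℂ) : ℝ := ∑ i, ‖x i‖ ^ (2 * 2 ^ k)

/-- the regularised sum of squares `T_k` -/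
noncomputable def TT (m : ℕ) (k : ℕ) (x : Fin (m + 3) → ℂ) : ℝ :=
  SS m k x + dd m k * QQ k x

lemma SS_nonneg (k : ℕ) (x : Fin (m + 3) → ℂ) : 0 ≤ SS m k x := by
  unfold SS sumSq
  exact Finset.sum_nonneg fun j _ => by positivity

lemma QQ_nonneg (k : ℕ) (x : Fin (m + 3) → ℂ) : 0 ≤ QQ k x :=
  Finset.sum_nonneg fun j _ => by positivity

lemma exists_norm_eq {x : Fin (m + 3) → ℂ} (hx : ‖x‖ = 1) : ∃ i, ‖x i‖ = 1 := by
  by_contra hcon
  push Not at hcon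
  have h3 : ∀ j, ‖x j‖ < 1 :=
    fun j => lt_of_le_of_ne ((norm_le_pi_norm x j).trans hx.le) (hcon j)
  exact absurd ((pi_norm_lt_iff one_pos).mpr h3) (by rw [hx]; exact lt_irrefl _)

lemma one_le_QQ (k : ℕ) {x : Fin (m + 3) → ℂ} (hx : ‖x‖ = 1) : 1 ≤ QQ k x := by
  obtain ⟨i, hi⟩ := exists_norm_eq hx
  have : ‖x i‖ ^ (2 * 2 ^ k) ≤ QQ k x :=
    Finset.single_le_sum (f := fun i => ‖x i‖ ^ (2 * 2 ^ k)) (fun i _ => by positivity)
      (Finset.mem_univ i)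
  rw [hi, one_pow] at this
  exact this

lemma QQ_le (k : ℕ) {x : Fin (m + 3) → ℂ} (hx : ‖x‖ = 1) : QQ k x ≤ m + 3 := by
  unfold QQ
  calc ∑ i, ‖x i‖ ^ (2 * 2 ^ k) ≤ ∑ i : Fin (m + 3), (1 : ℝ) := by
        apply Finset.sum_le_sum
        intro i _
        exact pow_le_one₀ (norm_nonneg _) ((norm_le_pi_norm x i).trans hx.le)
    _ = m + 3 := by simp

lemma QQ_succ_le (k : ℕ) (x : Fin (m + 3) → ℂ) : QQ (k + 1) x ≤ QQ k x ^ 2 := by
  unfold QQ
  have h : ∀ i, ‖x i‖ ^ (2 * 2 ^ (k + 1)) = (‖x i‖ ^ (2 * 2 ^ k)) ^ 2 := by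
    intro i
    rw [← pow_mul]
    congr 1
    ring
  simp_rw [h]
  exact Finset.sum_sq_le_sq_sum_of_nonneg fun i _ => by positivity

lemma mono_le_one {x : Fin (m + 3) → ℂ} (hx : ‖x‖ = 1) (a b : ℕ) :
    ‖x 0 ^ a * x i2 ^ b‖ ≤ 1 := by
  rw [norm_mul, norm_pow, norm_pow]
  have h1 : ‖x 0‖ ^ a ≤ 1 := pow_le_one₀ (norm_nonneg _) ((norm_le_pi_norm x _).trans hx.le)
  have h2 : ‖x i2‖ ^ b ≤ 1 := pow_le_one₀ (norm_nonneg _) ((norm_le_pi_norm x _).trans hx.le)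
  have h3 : 0 ≤ ‖x 0‖ ^ a := by positivity
  nlinarith [norm_nonneg (x i2), pow_nonneg (norm_nonneg (x i2)) b]

/-- the tail sums of the `S_k` -/
lemma SS_eq (k : ℕ) (x : Fin (m + 3) → ℂ) :
    SS m k x = ‖PP m k x‖ ^ 2 + ∑ j : Fin (m + 1), ‖x j.succ.succ‖ ^ (2 * 2 ^ k) :=
  sumSq_Fk _ _ _

lemma tail_pow (k : ℕ) (x : Fin (m + 3) → ℂ) :
    ∀ j : Fin (m + 1), ‖x j.succ.succ‖ ^ (2 * 2 ^ (k + 1)) =
      (‖x j.succ.succ‖ ^ (2 * 2 ^ k)) ^ 2 := by
  intro j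
  rw [← pow_mul]
  congr 1
  ring

/-- distance of `P_{k+1}` from `P_k^2` on the unit sphere -/
lemma PP_succ_close (k : ℕ) {x : Fin (m + 3) → ℂ} (hx : ‖x‖ = 1) :
    ‖PP m (k + 1) x‖ ≤ ‖PP m k x‖ ^ 2 + ee m k ∧
      ‖PP m k x‖ ^ 2 - ee m k ≤ ‖PP m (k + 1) x‖ := by
  obtain ⟨hg, hd0, hd1, he0, he1⟩ := good_all (m := m) k
  have hm := mono_le_one hx (2 ^ (k + 1) - ex (k + 1)) (ex (k + 1))
  have hn : ‖((ee m k : ℝ) : ℂ) * (x 0 ^ (2 ^ (k + 1) - ex (k + 1)) *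
      x i2 ^ (ex (k + 1)))‖ ≤ ee m k := by
    rw [norm_mul, Complex.norm_real, Real.norm_of_nonneg he0.le]
    calc ee m k * _ ≤ ee m k * 1 := by gcongr
      _ = ee m k := mul_one _
  rw [PP_succ]
  unfold nextP
  constructor
  · refine (norm_add_le _ _).trans ?_
    rw [norm_pow]
    gcongr
  · have := norm_sub_norm_le (PP m k x ^ 2)
      (-(((ee m k : ℝ) : ℂ) * (x 0 ^ (2 ^ (k + 1) - ex (k + 1)) *
      x i2 ^ (ex (k + 1)))))
    rw [norm_neg, sub_neg_eq_add, norm_pow] at this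
    linarith

lemma ee_mul_le (k : ℕ) :
    (2 ^ (2 ^ k)) ^ 2 * ee m k ≤ dd m k ^ 2 / (8 * (m + 2)) := by
  unfold ee epsOf
  have h2 : (0 : ℝ) < 2 ^ (2 ^ k) := by positivity
  have h3 : (0 : ℝ) < (m : ℝ) + 2 := by positivity
  apply le_of_eq
  field_simp

lemma SS_succ_le (k : ℕ) {x : Fin (m + 3) → ℂ} (hx : ‖x‖ = 1) :
    SS m (k + 1) x ≤ SS m k x ^ 2 + 3 * ((2 ^ (2 ^ k)) ^ 2 * ee m k) := by
  obtain ⟨hg, hd0, hd1, he0, he1⟩ := good_all (m := m) k
  have hc := (PP_succ_close k hx).1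
  have hb := good_norm_le hg hx.le
  set C : ℝ := 2 ^ (2 ^ k) with hC
  have hC2 : (2 : ℝ) ≤ C := two_le_pow_pow k
  set p := ‖PP m k x‖ with hp
  have hp0 : 0 ≤ p := norm_nonneg _
  rw [SS_eq, SS_eq]
  simp_rw [tail_pow]
  set s := ∑ j : Fin (m + 1), ‖x j.succ.succ‖ ^ (2 * 2 ^ k) with hs
  have hs0 : 0 ≤ s := Finset.sum_nonneg fun j _ => by positivity
  have h2 : ∑ j : Fin (m + 1), (‖x j.succ.succ‖ ^ (2 * 2 ^ k)) ^ 2 ≤ s ^ 2 :=
    Finset.sum_sq_le_sq_sum_of_nonneg fun i _ => by positivity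
  have h3 : ‖PP m (k + 1) x‖ ^ 2 ≤ (p ^ 2 + ee m k) ^ 2 := by gcongr
  have h4 : (p ^ 2 + ee m k) ^ 2 ≤ p ^ 4 + 3 * (C ^ 2 * ee m k) := by
    have h5 : p ^ 2 ≤ C ^ 2 := by gcongr
    have h6 : 1 ≤ C ^ 2 := by nlinarith
    have h7 : ee m k ^ 2 ≤ ee m k := by nlinarith
    have h8 : p ^ 2 * ee m k ≤ C ^ 2 * ee m k := by gcongr
    nlinarith
  nlinarith [sq_nonneg p, mul_nonneg (sq_nonneg p) hs0]

/-- monotonicity of the regularised sums -/
lemma TT_succ_le (k : ℕ) {x : Fin (m + 3) → ℂ} (hx : ‖x‖ = 1) :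
    TT m (k + 1) x ≤ TT m k x ^ 2 := by
  obtain ⟨hg, hd0, hd1, he0, he1⟩ := good_all (m := m) k
  have h2 := SS_succ_le k hx
  have h3 := ee_mul_le (m := m) k
  have h4 := QQ_succ_le k x
  have h5 := one_le_QQ k hx
  have h6 := dd_succ_le (m := m) k
  have h7 : dd m k ^ 2 / (8 * (m + 2)) ≤ dd m k ^ 2 / 8 := by
    apply div_le_div_of_nonneg_left (by positivity) (by positivity)
    have : (0 : ℝ) ≤ m := Nat.cast_nonneg m
    linarith
  unfold TT
  have h8 : 0 ≤ SS m k x := SS_nonneg k x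
  have h9 : 1 ≤ QQ k x ^ 2 := by nlinarith
  have h10 : dd m (k + 1) * QQ (k + 1) x ≤ (dd m k ^ 2 / 2) * QQ k x ^ 2 := by
    apply mul_le_mul h6 h4 (QQ_nonneg _ _) (by positivity)
  have h11 : 3 * (dd m k ^ 2 / 8) ≤ (dd m k ^ 2 / 2) * QQ k x ^ 2 := by
    have : 0 ≤ dd m k ^ 2 := by positivity
    nlinarith
  have h12 : 0 ≤ 2 * SS m k x * (dd m k * QQ k x) := by positivity
  calc SS m (k + 1) x + dd m (k + 1) * QQ (k + 1) x
      ≤ SS m k x ^ 2 + dd m k ^ 2 * QQ k x ^ 2 := by linarith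
    _ ≤ (SS m k x + dd m k * QQ k x) ^ 2 := by nlinarith

/-- two-sided comparison of `S_{k+1}` with `S_k^2` away from the pole -/
lemma SS_compare (k : ℕ) {x : Fin (m + 3) → ℂ} (hx : x ∈ Kset m k) :
    SS m k x ^ 2 / (2 * (m + 2)) ≤ SS m (k + 1) x ∧
      SS m (k + 1) x ≤ 2 * SS m k x ^ 2 := by
  obtain ⟨hg, hd0, hd1, he0, he1⟩ := good_all (m := m) k
  have hx1 : ‖x‖ = 1 := hx.1
  have hdS : dd m k ≤ SS m k x := dd_le_sumSq k hx
  have hdS2 : dd m k ^ 2 ≤ SS m k x ^ 2 := by gcongr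
  have h3 := ee_mul_le (m := m) k
  have hm : (0 : ℝ) ≤ m := Nat.cast_nonneg m
  constructor
  · have hc := (PP_succ_close k hx1).2
    have hb := good_norm_le hg hx1.le
    set C : ℝ := 2 ^ (2 ^ k) with hC
    have hC2 : (2 : ℝ) ≤ C := two_le_pow_pow k
    set p := ‖PP m k x‖ with hp
    have hp0 : 0 ≤ p := norm_nonneg _
    -- Cauchy-Schwarz
    have hcs : SS m k x ^ 2 ≤
        (m + 2) * (p ^ 4 + ∑ j : Fin (m + 1), (‖x j.succ.succ‖ ^ (2 * 2 ^ k)) ^ 2) := by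
      have h := sq_sum_le_card_mul_sum_sq (s := (Finset.univ : Finset (Fin (m + 2))))
        (f := fun j => ‖Fk (PP m k) k j x‖ ^ 2)
      have e1 : ∑ j, ‖Fk (PP m k) k j x‖ ^ 2 = SS m k x := rfl
      have e2 : ∑ j, (‖Fk (PP m k) k j x‖ ^ 2) ^ 2 =
          p ^ 4 + ∑ j : Fin (m + 1), (‖x j.succ.succ‖ ^ (2 * 2 ^ k)) ^ 2 := by
        rw [Fin.sum_univ_succ]
        congr 1
        · rw [Fk_zero, ← pow_mul]
        · apply Finset.sum_congr rfl
          intro j _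
          simp only [Fk_succ, norm_pow]
          rw [← pow_mul, ← pow_mul, ← pow_mul]
          congr 1
          ring
      rw [e1, e2] at h
      simpa using h
    have hlow : p ^ 4 - 2 * (C ^ 2 * ee m k) ≤ ‖PP m (k + 1) x‖ ^ 2 := by
      have h5 : p ^ 2 ≤ C ^ 2 := by gcongr
      have h8 : p ^ 2 * ee m k ≤ C ^ 2 * ee m k := by gcongr
      by_cases hcase : 0 ≤ p ^ 2 - ee m k
      · have h6 : (p ^ 2 - ee m k) ^ 2 ≤ ‖PP m (k + 1) x‖ ^ 2 := by gcongr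
        nlinarith [sq_nonneg (ee m k)]
      · push Not at hcase
        have h7 : p ^ 4 ≤ p ^ 2 * ee m k := by nlinarith [sq_nonneg p]
        have h9 : 0 ≤ ‖PP m (k + 1) x‖ ^ 2 := by positivity
        have h10 : 0 ≤ C ^ 2 * ee m k := by positivity
        linarith
    rw [SS_eq (k := k + 1)]
    simp_rw [tail_pow]
    set s4 := ∑ j : Fin (m + 1), (‖x j.succ.succ‖ ^ (2 * 2 ^ k)) ^ 2 with hs4
    have h5 : SS m k x ^ 2 / (m + 2) ≤ p ^ 4 + s4 := by
      rw [div_le_iff₀ (by positivity)]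
      linarith
    have h6 : 2 * (C ^ 2 * ee m k) ≤ SS m k x ^ 2 / (2 * (m + 2)) := by
      have h7 : dd m k ^ 2 / (8 * (m + 2)) ≤ SS m k x ^ 2 / (8 * (m + 2)) := by gcongr
      have h8 : SS m k x ^ 2 / (8 * (m + 2)) = (1 / 4) * (SS m k x ^ 2 / (2 * (m + 2))) := by
        field_simp
        ring
      have h9 : 0 ≤ SS m k x ^ 2 / (2 * (m + 2)) := by positivity
      linarith
    have h7 : SS m k x ^ 2 / (m + 2) = 2 * (SS m k x ^ 2 / (2 * (m + 2))) := by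
      field_simp
    linarith
  · have h2 := SS_succ_le k hx1
    have h7 : dd m k ^ 2 / (8 * (m + 2)) ≤ dd m k ^ 2 / 8 := by
      apply div_le_div_of_nonneg_left (by positivity) (by positivity)
      linarith
    have h8 : 0 ≤ SS m k x ^ 2 := by positivity
    linarith

/-- `h_k = (1/2^{k+1}) log S_k` -/
noncomputable def hh (m : ℕ) (k : ℕ) (x : Fin (m + 3) → ℂ) : ℝ :=
  1 / (2 * 2 ^ k) * Real.log (SS m k x)

/-- `v_k = (1/2^{k+1}) log T_k` -/
noncomputable def vv (m : ℕ) (k : ℕ) (x : Fin (m + 3) → ℂ) : ℝ :=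
  1 / (2 * 2 ^ k) * Real.log (TT m k x)

lemma SS_pos (k : ℕ) {x : Fin (m + 3) → ℂ} (hx : Fin.tail x ≠ 0) :
    0 < SS m k x := good_pos (good_all k).1 hx

lemma QQ_pos (k : ℕ) {x : Fin (m + 3) → ℂ} (hx : x ≠ 0) : 0 < QQ k x := by
  obtain ⟨i, hi⟩ := Function.ne_iff.mp hx
  have h1 : 0 < ‖x i‖ ^ (2 * 2 ^ k) := by
    have : 0 < ‖x i‖ := norm_pos_iff.mpr hi
    positivity
  exact lt_of_lt_of_le h1 (Finset.single_le_sum (f := fun i => ‖x i‖ ^ (2 * 2 ^ k))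
    (fun i _ => by positivity) (Finset.mem_univ i))

lemma TT_pos (k : ℕ) {x : Fin (m + 3) → ℂ} (hx : x ≠ 0) :
    0 < TT m k x := by
  have := SS_nonneg (m := m) k x
  have h2 := QQ_pos k hx
  have h3 := (good_all (m := m) k).2.1
  unfold TT
  positivity

lemma SS_smul (k : ℕ) (c : ℂ) (x : Fin (m + 3) → ℂ) :
    SS m k (c • x) = ‖c‖ ^ (2 * 2 ^ k) * SS m k x := by
  obtain ⟨hg, -⟩ := good_all (m := m) k
  rw [SS_eq, SS_eq, hg.homog, norm_mul, norm_pow, mul_pow, ← pow_mul, mul_add, Finset.mul_sum]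
  congr 1
  · rw [mul_comm (2 ^ k) 2]
  · apply Finset.sum_congr rfl
    intro j _
    simp only [Pi.smul_apply, smul_eq_mul, norm_mul]
    rw [mul_pow]

lemma QQ_smul (k : ℕ) (c : ℂ) (x : Fin (m + 3) → ℂ) :
    QQ k (c • x) = ‖c‖ ^ (2 * 2 ^ k) * QQ k x := by
  unfold QQ
  rw [Finset.mul_sum]
  apply Finset.sum_congr rfl
  intro j _
  simp only [Pi.smul_apply, smul_eq_mul, norm_mul]
  rw [mul_pow]

lemma TT_smul (k : ℕ) (c : ℂ) (x : Fin (m + 3) → ℂ) :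
    TT m k (c • x) = ‖c‖ ^ (2 * 2 ^ k) * TT m k x := by
  unfold TT
  rw [SS_smul, QQ_smul]
  ring

lemma hh_smul (k : ℕ) {c : ℂ} (hc : c ≠ 0) {x : Fin (m + 3) → ℂ}
    (hx : Fin.tail x ≠ 0) : hh m k (c • x) = Real.log ‖c‖ + hh m k x := by
  unfold hh
  have hc' : 0 < ‖c‖ := norm_pos_iff.mpr hc
  rw [SS_smul, Real.log_mul (by positivity) (SS_pos k hx).ne', Real.log_pow]
  push_cast
  have : (2 : ℝ) ^ k ≠ 0 := by positivity
  field_simp

lemma vv_smul (k : ℕ) {c : ℂ} (hc : c ≠ 0) {x : Fin (m + 3) → ℂ}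
    (hx : x ≠ 0) : vv m k (c • x) = Real.log ‖c‖ + vv m k x := by
  unfold vv
  have hc' : 0 < ‖c‖ := norm_pos_iff.mpr hc
  rw [TT_smul, Real.log_mul (by positivity) (TT_pos k hx).ne', Real.log_pow]
  push_cast
  have : (2 : ℝ) ^ k ≠ 0 := by positivity
  field_simp

lemma vv_succ_le_sphere (k : ℕ) {x : Fin (m + 3) → ℂ} (hx : ‖x‖ = 1) :
    vv m (k + 1) x ≤ vv m k x := by
  have hx0 : x ≠ 0 := by
    rintro rfl
    simp at hx
  have h := TT_succ_le (m := m) k hx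
  have h2 := Real.log_le_log (TT_pos (k + 1) hx0) h
  rw [Real.log_pow] at h2
  unfold vv
  push_cast at h2
  have h3 : 1 / (2 * 2 ^ (k + 1)) * Real.log (TT m (k + 1) x) ≤
      1 / (2 * 2 ^ (k + 1)) * (2 * Real.log (TT m k x)) := by gcongr
  refine h3.trans (le_of_eq ?_)
  rw [pow_succ]
  have : (2 : ℝ) ^ k ≠ 0 := by positivity
  field_simp

lemma exists_sphere_rep {x : Fin (m + 3) → ℂ} (hx : x ≠ 0) :
    ∃ (c : ℂ) (y : Fin (m + 3) → ℂ), c ≠ 0 ∧ ‖c‖ = ‖x‖ ∧ ‖y‖ = 1 ∧ x = c • y := by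
  have hn : 0 < ‖x‖ := norm_pos_iff.mpr hx
  refine ⟨(‖x‖ : ℂ), (‖x‖ : ℂ)⁻¹ • x, by exact_mod_cast hn.ne', by simp, ?_, ?_⟩
  · rw [norm_smul, norm_inv, Complex.norm_real, norm_norm]
    field_simp
  · rw [smul_smul, mul_inv_cancel₀ (by exact_mod_cast hn.ne'), one_smul]

lemma vv_antitone {x : Fin (m + 3) → ℂ} (hx : x ≠ 0) :
    Antitone fun k => vv m k x := by
  apply antitone_nat_of_succ_le
  intro k
  obtain ⟨c, y, hc, -, hy, rfl⟩ := exists_sphere_rep hx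
  have hy0 : y ≠ 0 := by
    rintro rfl
    simp at hy
  rw [vv_smul _ hc hy0, vv_smul _ hc hy0]
  have := vv_succ_le_sphere k hy
  linarith

/-- the constant in the convergence estimate -/
noncomputable def cc (m : ℕ) : ℝ := Real.log (2 * (m + 2)) / 2

lemma cc_nonneg (m : ℕ) : 0 ≤ cc m := by
  unfold cc
  have : (0 : ℝ) ≤ m := Nat.cast_nonneg m
  have := Real.log_nonneg (by linarith : (1 : ℝ) ≤ 2 * (m + 2))
  positivity

lemma hh_step (k : ℕ) {x : Fin (m + 3) → ℂ} (hx : x ∈ Kset m k) :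
    |hh m (k + 1) x - hh m k x| ≤ cc m / 2 ^ k - cc m / 2 ^ (k + 1) := by
  have ht := tail_ne_zero hx
  have hS := SS_pos (m := m) k ht
  have hS' := SS_pos (m := m) (k + 1) ht
  obtain ⟨ha, hb⟩ := SS_compare (m := m) k hx
  have hm : (0 : ℝ) ≤ m := Nat.cast_nonneg m
  have la := Real.log_le_log (by positivity) ha
  have lb := Real.log_le_log hS' hb
  rw [Real.log_div (by positivity) (by positivity), Real.log_pow] at la
  rw [Real.log_mul (by norm_num) (by positivity), Real.log_pow] at lb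
  push_cast at la lb
  have h2 : Real.log 2 ≤ Real.log (2 * (m + 2)) := Real.log_le_log (by norm_num) (by linarith)
  have hd : hh m (k + 1) x - hh m k x =
      1 / (2 * 2 ^ (k + 1)) * (Real.log (SS m (k + 1) x) - 2 * Real.log (SS m k x)) := by
    unfold hh
    rw [pow_succ]
    have : (2 : ℝ) ^ k ≠ 0 := by positivity
    field_simp
  have he : cc m / 2 ^ k - cc m / 2 ^ (k + 1) =
      1 / (2 * 2 ^ (k + 1)) * Real.log (2 * (m + 2)) := by
    unfold cc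
    rw [pow_succ]
    have : (2 : ℝ) ^ k ≠ 0 := by positivity
    field_simp
    ring
  rw [hd, he, abs_mul, abs_of_pos (by positivity : (0 : ℝ) < 1 / (2 * 2 ^ (k + 1)))]
  apply mul_le_mul_of_nonneg_left _ (by positivity)
  rw [abs_le]
  constructor <;> linarith

lemma hh_cauchy {k l : ℕ} (hkl : k ≤ l) {x : Fin (m + 3) → ℂ}
    (hx : x ∈ Kset m k) : |hh m l x - hh m k x| ≤ cc m / 2 ^ k - cc m / 2 ^ l := by
  induction l, hkl using Nat.le_induction with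
  | base => simp
  | succ l hkl ih =>
    have h := hh_step (m := m) l (Kset_mono hkl hx)
    calc |hh m (l + 1) x - hh m k x|
        ≤ |hh m (l + 1) x - hh m l x| + |hh m l x - hh m k x| := abs_sub_le _ _ _
      _ ≤ _ := by linarith

lemma hh_le_vv (k : ℕ) {x : Fin (m + 3) → ℂ} (hx : Fin.tail x ≠ 0) :
    hh m k x ≤ vv m k x := by
  unfold hh vv
  have hd := (good_all (m := m) k).2.1
  apply mul_le_mul_of_nonneg_left _ (by positivity)
  apply Real.log_le_log (SS_pos k hx)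
  unfold TT
  have := QQ_nonneg k x
  have := mul_nonneg hd.le this
  linarith

lemma vv_sub_hh_le (k : ℕ) {x : Fin (m + 3) → ℂ} (hx : x ∈ Kset m k) :
    vv m k x ≤ hh m k x + Real.log (m + 4) / 2 ^ k := by
  have ht := tail_ne_zero hx
  have hS := SS_pos (m := m) k ht
  have hdS : dd m k ≤ SS m k x := dd_le_sumSq k hx
  have hd := (good_all (m := m) k).2.1
  have hQ := QQ_le k hx.1
  have hQ0 := QQ_nonneg k x
  have hm : (0 : ℝ) ≤ m := Nat.cast_nonneg m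
  have hT : TT m k x ≤ (m + 4) * SS m k x := by
    unfold TT
    have : dd m k * QQ k x ≤ SS m k x * (m + 3) := by gcongr
    linarith
  have hx0 : x ≠ 0 := by
    rintro rfl
    have := hx.1
    simp at this
  have h2 := Real.log_le_log (TT_pos k hx0) hT
  rw [Real.log_mul (by positivity) hS.ne'] at h2
  unfold vv hh
  have h3 : 1 / (2 * 2 ^ k) * Real.log (TT m k x) ≤
      1 / (2 * 2 ^ k) * (Real.log (m + 4) + Real.log (SS m k x)) := by gcongr
  have h4 : 0 ≤ Real.log ((m : ℝ) + 4) := Real.log_nonneg (by linarith)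
  have h5 : 1 / (2 * 2 ^ k) * Real.log ((m : ℝ) + 4) ≤ Real.log (m + 4) / 2 ^ k := by
    rw [div_mul_eq_mul_div, one_mul]
    apply div_le_div_of_nonneg_left h4 (by positivity)
    have : (0 : ℝ) < 2 ^ k := by positivity
    linarith
  linarith

/-- the limit potential (off the pole) -/
noncomputable def VV (m : ℕ) (x : Fin (m + 3) → ℂ) : ℝ := ⨅ k, vv m k x

lemma exists_mem_Kset {x : Fin (m + 3) → ℂ} (hx : ‖x‖ = 1) (ht : Fin.tail x ≠ 0) :
    ∃ k, x ∈ Kset m k := by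
  have h : 0 < ‖(Fin.tail x : Fin (m + 2) → ℂ)‖ := norm_pos_iff.mpr ht
  obtain ⟨k, hk⟩ := exists_nat_one_div_lt h
  exact ⟨k, hx, hk.le⟩

lemma vv_bddBelow_sphere {k : ℕ} {x : Fin (m + 3) → ℂ}
    (hx : x ∈ Kset m k) (l : ℕ) : hh m k x - cc m / 2 ^ k ≤ vv m l x := by
  have hx0 : x ≠ 0 := by
    rintro rfl
    have := hx.1
    simp at this
  have ht := tail_ne_zero hx
  have h2 : 0 ≤ cc m / 2 ^ (max k l) := by
    have := cc_nonneg m
    positivity
  have h3 := (abs_le.mp (hh_cauchy (le_max_left k l) hx)).1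
  have h4 := hh_le_vv (m := m) (max k l) ht
  have h5 : vv m (max k l) x ≤ vv m l x := vv_antitone hx0 (le_max_right k l)
  linarith

lemma vv_bddBelow {x : Fin (m + 3) → ℂ} (ht : Fin.tail x ≠ 0) :
    BddBelow (Set.range fun k => vv m k x) := by
  have hx : x ≠ 0 := by
    rintro rfl
    exact ht rfl
  obtain ⟨c, y, hc, -, hy, rfl⟩ := exists_sphere_rep hx
  have hy0 : y ≠ 0 := by
    rintro rfl
    simp at hy
  have hty : Fin.tail y ≠ 0 := by
    intro h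
    apply ht
    ext j
    have := congrFun h j
    simp [Fin.tail] at this ⊢
    exact Or.inr this
  obtain ⟨k, hk⟩ := exists_mem_Kset hy hty
  refine ⟨Real.log ‖c‖ + (hh m k y - cc m / 2 ^ k), ?_⟩
  rintro _ ⟨l, rfl⟩
  simp only
  rw [vv_smul _ hc hy0]
  have := vv_bddBelow_sphere hk l
  linarith

lemma VV_tendsto {x : Fin (m + 3) → ℂ} (ht : Fin.tail x ≠ 0) :
    Tendsto (fun k => vv m k x) atTop (𝓝 (VV m x)) := by
  have hx : x ≠ 0 := by
    rintro rfl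
    exact ht rfl
  exact tendsto_atTop_ciInf (vv_antitone hx) (vv_bddBelow ht)

/-- `h_k` converges uniformly to the limit potential on the sets `Kset m k`. -/
lemma hh_sub_VV {k : ℕ} {x : Fin (m + 3) → ℂ} (hx : x ∈ Kset m k) :
    |hh m k x - VV m x| ≤ cc m / 2 ^ k := by
  have ht := tail_ne_zero hx
  have hlim := VV_tendsto (m := m) ht
  -- h_l also converges to V
  have hlog : Tendsto (fun l : ℕ => Real.log ((m : ℝ) + 4) / 2 ^ l) atTop (𝓝 0) := by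
    have := (tendsto_pow_atTop_nhds_zero_of_lt_one (r := (1 / 2 : ℝ)) (by norm_num)
      (by norm_num)).const_mul (Real.log ((m : ℝ) + 4))
    simp only [mul_zero] at this
    refine this.congr ?_
    intro l
    rw [one_div, inv_pow]
    rfl
  have hlim2 : Tendsto (fun l => hh m l x) atTop (𝓝 (VV m x)) := by
    have hl : Tendsto (fun l => vv m l x - Real.log ((m : ℝ) + 4) / 2 ^ l) atTop
        (𝓝 (VV m x)) := by simpa using hlim.sub hlog
    apply tendsto_of_tendsto_of_tendsto_of_le_of_le' hl hlim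
    · filter_upwards [eventually_ge_atTop k] with l hl
      have := vv_sub_hh_le (m := m) l (Kset_mono hl hx)
      linarith
    · filter_upwards with l
      exact hh_le_vv l ht
  have hle : ∀ᶠ l in atTop, |hh m k x - hh m l x| ≤ cc m / 2 ^ k := by
    filter_upwards [eventually_ge_atTop k] with l hl
    have := hh_cauchy hl hx
    rw [abs_sub_comm]
    have h2 : 0 ≤ cc m / 2 ^ l := by
      have := cc_nonneg m
      positivity
    linarith
  exact le_of_tendsto (tendsto_const_nhds.sub hlim2).abs hle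

end Pool.Agent.Helper853.Zm
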