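import Pool.Agent.Helper853.Final
import Pool.Agent.Helper853.Zm.Limit

open scoped Topology ContDiff ComplexOrder ENNReal ComplexConjugate
open MeasureTheory Filter

namespace Pool.Agent.Helper853.Zm

variable {m : ℕ}

section smooth

/-- the holomorphic functions whose squares sum to `T_k` -/
noncomputable def Gk (m : ℕ) (k : ℕ) :
    (Fin (m + 2) ⊕ Fin (m + 3)) → (Fin (m + 2) → ℂ) → ℂ
  | Sum.inl j => fun x => Fk (PP m k) k j (homog 0 x)
  | Sum.inr l => fun x => ((Real.sqrt (dd m k) : ℝ) : ℂ) * (homog 0 x l) ^ (2 ^ k)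

lemma contDiff_Gk (k : ℕ) (s : Fin (m + 2) ⊕ Fin (m + 3)) : ContDiff ℂ ∞ (Gk m k s) := by
  rcases s with j | l
  · exact (contDiff_Fk (good_all k).1 j).comp (contDiff_homog' 0)
  · exact contDiff_const.mul ((contDiff_homog 0 l).pow _)

lemma sumSq_Gk (k : ℕ) (x : Fin (m + 2) → ℂ) :
    sumSq (Gk m k) x = TT m k (homog 0 x) := by
  unfold sumSq TT
  rw [Fintype.sum_sum_type]
  congr 1
  unfold QQ
  rw [Finset.mul_sum]
  apply Finset.sum_congr rfl
  intro l _
  have hd := (good_all (m := m) k).2.1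
  simp only [Gk, norm_mul, norm_pow, Complex.norm_real]
  rw [Real.norm_of_nonneg (Real.sqrt_nonneg _), mul_pow, Real.sq_sqrt hd.le, ← pow_mul]
  congr 2
  ring

/-- the smooth approximants -/
noncomputable def vc (m : ℕ) (k : ℕ) (x : Fin (m + 2) → ℂ) : ℝ := vv m k (homog 0 x)

/-- the limit off the origin -/
noncomputable def Vc (m : ℕ) (x : Fin (m + 2) → ℂ) : ℝ := VV m (homog 0 x)

/-- the limit -/
noncomputable def phi (m : ℕ) (x : Fin (m + 2) → ℂ) : EReal := ⨅ k, (vc m k x : EReal)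

lemma vc_eq (k : ℕ) :
    vc m k = fun x => 1 / (2 * 2 ^ k) * Real.log (sumSq (Gk m k) x) := by
  ext x
  rw [sumSq_Gk]
  rfl

lemma sumSq_Gk_pos (k : ℕ) (x : Fin (m + 2) → ℂ) :
    0 < sumSq (Gk m k) x := by
  rw [sumSq_Gk]
  exact TT_pos k (homog_ne_zero 0 x)

lemma contDiff_vc (k : ℕ) : ContDiff ℝ ∞ (vc m k) := by
  rw [vc_eq]
  exact contDiff_const.mul ((contDiff_sumSq (contDiff_Gk k)).log
    fun x => (sumSq_Gk_pos k x).ne')

lemma subMean_vc (k : ℕ) : SubMean (vc m k) := by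
  rw [vc_eq]
  exact subMean_log_sumSq (contDiff_Gk k) (sumSq_Gk_pos k) (by positivity)

lemma sPsh_vc (k : ℕ) : SPsh Set.univ (vc m k) := by
  rw [vc_eq]
  exact sPsh_log_sumSq (contDiff_Gk k) (fun x _ => sumSq_Gk_pos k x) isOpen_univ (by positivity)

lemma vc_antitone (x : Fin (m + 2) → ℂ) : Antitone fun k => vc m k x :=
  vv_antitone (homog_ne_zero 0 x)

lemma isPsh_phi : IsPsh (phi m) :=
  isPsh_iInf (fun k => (contDiff_vc k).continuous) vc_antitone subMean_vc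

lemma tendsto_phi (x : Fin (m + 2) → ℂ) :
    Tendsto (fun k => (vc m k x : EReal)) atTop (𝓝 (phi m x)) := by
  apply tendsto_atTop_iInf
  intro k l hkl
  exact EReal.coe_le_coe_iff.mpr (vc_antitone x hkl)

lemma vc_tendsto {x : Fin (m + 2) → ℂ} (hx : x ≠ 0) :
    Tendsto (fun k => vc m k x) atTop (𝓝 (Vc m x)) :=
  VV_tendsto (tail_homog_ne hx)

lemma phi_eq {x : Fin (m + 2) → ℂ} (hx : x ≠ 0) : phi m x = (Vc m x : EReal) :=
  tendsto_nhds_unique (tendsto_phi x) ((continuous_coe_real_ereal.tendsto _).comp (vc_tendsto hx))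

lemma Vc_le_vc {x : Fin (m + 2) → ℂ} (hx : x ≠ 0) (k : ℕ) : Vc m x ≤ vc m k x :=
  (vc_antitone x).le_of_tendsto (vc_tendsto hx) k

end smooth

section near

lemma norm_homog_zero : ‖(homog 0 (0 : Fin (m + 2) → ℂ))‖ = 1 := by
  rw [norm_homog]
  simp

lemma PP_zero_pt (k : ℕ) : PP m k (homog 0 (0 : Fin (m + 2) → ℂ)) = 0 := by
  have h := (good_all (m := m) k).1.restr (homog 0 (0 : Fin (m + 2) → ℂ)) (by
    unfold i2
    rw [homog_succ_apply]
    rfl)
  rw [h]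
  have : homog 0 (0 : Fin (m + 2) → ℂ) i1 = 0 := by
    unfold i1
    rw [homog_succ_apply]
    rfl
  rw [this, zero_pow (by positivity)]

lemma vc_zero (k : ℕ) : vc m k 0 = 1 / (2 * 2 ^ k) * Real.log (dd m k) := by
  unfold vc vv
  congr 2
  unfold TT
  rw [SS_eq, PP_zero_pt]
  have h1 : ∀ j : Fin (m + 2), homog 0 (0 : Fin (m + 2) → ℂ) j.succ = 0 := by
    intro j
    rw [homog_succ_apply]
    rfl
  have h2 : QQ k (homog 0 (0 : Fin (m + 2) → ℂ)) = 1 := by
    unfold QQ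
    rw [Fin.sum_univ_succ]
    simp_rw [h1]
    rw [homog_zero_apply]
    simp
  rw [h2]
  have h3 : ∀ j : Fin (m + 1), ‖homog 0 (0 : Fin (m + 2) → ℂ) j.succ.succ‖ ^ (2 * 2 ^ k) = 0 := by
    intro j
    rw [h1, norm_zero, zero_pow (by positivity)]
  simp_rw [h3]
  simp

lemma vc_zero_le (k : ℕ) : vc m k 0 ≤ -(2 ^ k / 2) := by
  rw [vc_zero]
  have h1 := dd_le_exp (m := m) k
  have h2 := Real.log_le_log (good_all (m := m) k).2.1 h1
  rw [Real.log_exp] at h2
  calc 1 / (2 * 2 ^ k) * Real.log (dd m k) ≤ 1 / (2 * 2 ^ k) * (-(4 ^ k)) := by gcongr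
    _ = -(2 ^ k / 2) := by
      rw [show (4 : ℝ) = 2 * 2 by norm_num, mul_pow]
      have : (2 : ℝ) ^ k ≠ 0 := by positivity
      field_simp

lemma tendsto_vc_zero : Tendsto (fun k => vc m k 0) atTop atBot := by
  apply tendsto_atBot_mono vc_zero_le
  have h1 : Tendsto (fun k : ℕ => (2 : ℝ) ^ k / 2) atTop atTop :=
    (tendsto_pow_atTop_atTop_of_one_lt (by norm_num : (1 : ℝ) < 2)).atTop_div_const (by norm_num)
  exact tendsto_neg_atTop_atBot.comp h1

lemma phi_zero : phi m 0 = ⊥ := by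
  apply tendsto_nhds_unique (tendsto_phi 0)
  exact EReal.tendsto_coe_nhds_bot_iff.mpr tendsto_vc_zero

/-- the limit tends to `-∞` at the origin -/
lemma Vc_near (M : ℝ) : ∃ r > 0, ∀ x : Fin (m + 2) → ℂ, x ≠ 0 → ‖x‖ ≤ r → Vc m x ≤ M := by
  obtain ⟨k, hk⟩ := (tendsto_vc_zero (m := m).eventually (eventually_lt_atBot M)).exists
  have hc : ContinuousAt (vc m k) 0 := (contDiff_vc k).continuous.continuousAt
  have h1 := hc.eventually (gt_mem_nhds hk)
  obtain ⟨r, hr, h2⟩ := Metric.eventually_nhds_iff.mp h1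
  refine ⟨r / 2, by positivity, ?_⟩
  intro x hx hxr
  have h3 := h2 (show dist x 0 < r by rw [dist_zero_right]; linarith)
  exact (Vc_le_vc hx k).trans h3.le

end near

section estimates

lemma VV_smul {c : ℂ} (hc : c ≠ 0) {y : Fin (m + 3) → ℂ}
    (ht : Fin.tail y ≠ 0) : VV m (c • y) = Real.log ‖c‖ + VV m y := by
  have hy : y ≠ 0 := by
    rintro rfl
    exact ht rfl
  have ht' : Fin.tail (c • y) ≠ 0 := by
    intro h
    apply ht
    ext j
    have := congrFun h j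
    simp [Fin.tail] at this ⊢
    exact this.resolve_left hc
  have l1 := VV_tendsto (m := m) ht'
  have l2 := (VV_tendsto (m := m) ht).const_add (Real.log ‖c‖)
  apply tendsto_nhds_unique l1
  refine l2.congr ?_
  intro k
  rw [vv_smul k hc hy]

lemma sphere_ne_zero {k : ℕ} {y : Fin (m + 3) → ℂ} (hy : y ∈ Kset m k) : y ≠ 0 := by
  rintro rfl
  have := hy.1
  simp at this

lemma exists_Kset_rep {k : ℕ} {x : Fin (m + 2) → ℂ} (hx : 1 / ((k : ℝ) + 1) ≤ ‖x‖) :
    ∃ (c : ℂ) (y : Fin (m + 3) → ℂ), c ≠ 0 ∧ y ∈ Kset m k ∧ homog 0 x = c • y := by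
  obtain ⟨c, y, h1, h2, h3⟩ := Helper853.exists_Kset_rep hx
  exact ⟨c, y, h1, h2, h3⟩

/-- `h_k` in the chart -/
noncomputable def hc (m k : ℕ) (x : Fin (m + 2) → ℂ) : ℝ := hh m k (homog 0 x)

/-- `h_k` in the chart is uniformly close to the limit away from the pole -/
lemma hc_close {k : ℕ} {x : Fin (m + 2) → ℂ}
    (hx : 1 / ((k : ℝ) + 1) ≤ ‖x‖) :
    |hc m k x - Vc m x| ≤ cc m / 2 ^ k := by
  obtain ⟨c, y, hc', hy, e⟩ := exists_Kset_rep hx
  unfold hc Vc
  rw [e, hh_smul k hc' (tail_ne_zero hy), VV_smul hc' (tail_ne_zero hy)]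
  have := hh_sub_VV hy
  rwa [add_sub_add_left_eq_sub]

/-- `v_k` in the chart is uniformly close to the limit away from the pole -/
lemma vc_close {k : ℕ} {x : Fin (m + 2) → ℂ}
    (hx : 1 / ((k : ℝ) + 1) ≤ ‖x‖) :
    |vc m k x - Vc m x| ≤ (cc m + Real.log (m + 4)) / 2 ^ k := by
  obtain ⟨c, y, hc', hy, e⟩ := exists_Kset_rep hx
  unfold vc Vc
  rw [e, vv_smul k hc' (sphere_ne_zero hy), VV_smul hc' (tail_ne_zero hy),
    add_sub_add_left_eq_sub]
  have h1 := abs_le.mp (hh_sub_VV hy)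
  have h2 := vv_sub_hh_le k hy
  have h3 := hh_le_vv k (tail_ne_zero hy)
  have h4 : 0 ≤ Real.log ((m : ℝ) + 4) / 2 ^ k := by
    have : 0 ≤ Real.log ((m : ℝ) + 4) := Real.log_nonneg (by
      have : (0 : ℝ) ≤ m := Nat.cast_nonneg m
      linarith)
    positivity
  rw [add_div, abs_le]
  constructor <;> linarith [h1.1, h1.2]

/-- upper bound for `h_k - ½ log(1+|x|²)` -/
lemma hc_sub_fs_le (k : ℕ) : ∃ C : ℝ, ∀ x : Fin (m + 2) → ℂ, x ≠ 0 →
    hc m k x ≤ fsPot x + C := by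
  refine ⟨1 / (2 * 2 ^ k) * Real.log ((2 ^ (2 ^ k)) ^ 2 + (m + 1)), ?_⟩
  intro x hx
  have hm : (0 : ℝ) ≤ m := Nat.cast_nonneg m
  have hn : 0 < ‖x‖ := norm_pos_iff.mpr hx
  obtain ⟨l, hl⟩ := exists_nat_one_div_lt hn
  obtain ⟨c, y, hc', hy, e⟩ := exists_Kset_rep hl.le
  have ht := tail_ne_zero hy
  have hy0 := sphere_ne_zero hy
  unfold hc
  rw [← LL_homog 0 x, e, hh_smul k hc' ht, LL_smul hc' hy0]
  have hL := (LL_sphere hy.1).1
  have hS : SS m k y ≤ (2 ^ (2 ^ k)) ^ 2 + (m + 1) := by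
    rw [SS_eq]
    have hb := good_norm_le (good_all (m := m) k).1 hy.1.le
    have h2 : ∑ j : Fin (m + 1), ‖y j.succ.succ‖ ^ (2 * 2 ^ k) ≤ m + 1 := by
      calc ∑ j : Fin (m + 1), ‖y j.succ.succ‖ ^ (2 * 2 ^ k) ≤ ∑ j : Fin (m + 1), (1 : ℝ) := by
            apply Finset.sum_le_sum
            intro i _
            exact pow_le_one₀ (norm_nonneg _) ((norm_le_pi_norm y _).trans hy.1.le)
        _ = m + 1 := by simp
    have h3 : ‖PP m k y‖ ^ 2 ≤ (2 ^ (2 ^ k)) ^ 2 := by gcongr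
    linarith
  have h4 := Real.log_le_log (SS_pos k ht) hS
  have h5 : hh m k y ≤ 1 / (2 * 2 ^ k) * Real.log ((2 ^ (2 ^ k)) ^ 2 + (m + 1)) := by
    unfold hh
    gcongr
  linarith

/-- lower bound for `h_k - ½ log(1+|x|²)` away from the pole -/
lemma fs_sub_le_hc (k : ℕ) : ∃ C : ℝ, ∀ x : Fin (m + 2) → ℂ,
    1 / ((k : ℝ) + 1) ≤ ‖x‖ → fsPot x - C ≤ hc m k x := by
  refine ⟨Real.log (m + 3) - 1 / (2 * 2 ^ k) * Real.log (dd m k), ?_⟩
  intro x hx
  obtain ⟨c, y, hc', hy, e⟩ := exists_Kset_rep hx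
  have ht := tail_ne_zero hy
  have hy0 := sphere_ne_zero hy
  unfold hc
  rw [← LL_homog 0 x, e, hh_smul k hc' ht, LL_smul hc' hy0]
  have hL := (LL_sphere hy.1).2
  have hd := (good_all (m := m) k).2.1
  have hdS : dd m k ≤ SS m k y := dd_le_sumSq k hy
  have h4 := Real.log_le_log hd hdS
  have h5 : 1 / (2 * 2 ^ k) * Real.log (dd m k) ≤ hh m k y := by
    unfold hh
    gcongr
  linarith

/-- behaviour of `h_k` near the pole -/
lemma hc_near (k : ℕ) {x : Fin (m + 2) → ℂ} (hx : x ≠ 0)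
    (hx1 : ‖x‖ ≤ 1) :
    hc m k x ≤ Real.log (m + 2) + Real.log 2 + 1 / 2 ^ k * Real.log ‖x‖ := by
  have hm : (0 : ℝ) ≤ m := Nat.cast_nonneg m
  have hn : 0 < ‖x‖ := norm_pos_iff.mpr hx
  have ht : Fin.tail (homog 0 x) ≠ 0 := by rwa [tail_homog]
  obtain ⟨hg, -⟩ := good_all (m := m) k
  set C : ℝ := 2 ^ (2 ^ k) with hC
  have hC2 : (2 : ℝ) ≤ C := two_le_pow_pow k
  have hb := hg.bound (homog 0 x) ‖x‖ (by rw [homog_zero_apply]; simp)
    (fun j => by rw [homog_succ_apply]; exact norm_le_pi_norm x j) hx1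
  have hP : ‖PP m k (homog 0 x)‖ ≤ C * ‖x‖ ^ (ex k) := by
    have := norm_nonneg (PP m k (homog 0 x))
    linarith
  have hS : SS m k (homog 0 x) ≤ (m + 2) * (C * ‖x‖ ^ (ex k)) ^ 2 := by
    rw [SS_eq]
    have h2 : ∑ j : Fin (m + 1), ‖homog 0 x j.succ.succ‖ ^ (2 * 2 ^ k) ≤
        (m + 1) * (C * ‖x‖ ^ (ex k)) ^ 2 := by
      calc ∑ j : Fin (m + 1), ‖homog 0 x j.succ.succ‖ ^ (2 * 2 ^ k) ≤
          ∑ j : Fin (m + 1), (C * ‖x‖ ^ (ex k)) ^ 2 := by
            apply Finset.sum_le_sum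
            intro j _
            rw [homog_succ_apply]
            calc ‖x j.succ‖ ^ (2 * 2 ^ k) ≤ ‖x‖ ^ (2 * 2 ^ k) := by
                  gcongr
                  exact norm_le_pi_norm x _
              _ ≤ ‖x‖ ^ (2 * ex k) :=
                  pow_le_pow_of_le_one hn.le hx1 (Nat.mul_le_mul_left 2 (ex_le k))
              _ = (1 * ‖x‖ ^ (ex k)) ^ 2 := by rw [one_mul, ← pow_mul, mul_comm]
              _ ≤ (C * ‖x‖ ^ (ex k)) ^ 2 := by
                  gcongr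
                  linarith
        _ = (m + 1) * (C * ‖x‖ ^ (ex k)) ^ 2 := by simp
    have h3 : ‖PP m k (homog 0 x)‖ ^ 2 ≤ (C * ‖x‖ ^ (ex k)) ^ 2 := by gcongr
    linarith
  have h4 := Real.log_le_log (SS_pos k ht) hS
  have hxp : 0 < ‖x‖ ^ (ex k) := by positivity
  rw [Real.log_mul (by positivity) (by positivity), Real.log_pow,
    Real.log_mul (by positivity) hxp.ne', Real.log_pow, Real.log_pow] at h4
  push_cast at h4
  have hlx : Real.log ‖x‖ ≤ 0 := Real.log_nonpos hn.le hx1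
  have h2k : (0 : ℝ) < 2 ^ k := by positivity
  have h5 : hh m k (homog 0 x) ≤ 1 / (2 * 2 ^ k) * (Real.log (m + 2) + 2 * (2 ^ k * Real.log 2 +
      (ex k) * Real.log ‖x‖)) := by
    unfold hh
    gcongr
  have h6 : 1 / (2 * 2 ^ k) * (Real.log ((m : ℝ) + 2) + 2 * (2 ^ k * Real.log 2 +
      (ex k) * Real.log ‖x‖)) = Real.log (m + 2) / (2 * 2 ^ k) + Real.log 2 +
        1 / 2 ^ k * Real.log ‖x‖ := by
    unfold ex
    field_simp
    push_cast
    ring
  rw [h6] at h5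
  have h7 : Real.log ((m : ℝ) + 2) / (2 * 2 ^ k) ≤ Real.log (m + 2) := by
    have : 0 ≤ Real.log ((m : ℝ) + 2) := Real.log_nonneg (by linarith)
    apply div_le_self this
    have : (1 : ℝ) ≤ 2 ^ k := one_le_pow₀ (by norm_num)
    linarith
  unfold hc
  linarith

/-- lower bound for the limit away from the pole -/
lemma fs_sub_le_Vc (k : ℕ) : ∃ C : ℝ, ∀ x : Fin (m + 2) → ℂ,
    1 / ((k : ℝ) + 1) ≤ ‖x‖ → fsPot x - C ≤ Vc m x := by
  obtain ⟨C, hC⟩ := fs_sub_le_hc (m := m) k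
  refine ⟨C + cc m / 2 ^ k, ?_⟩
  intro x hx
  have h2 := hC x hx
  have h3 := (abs_le.mp (hc_close (m := m) hx)).2
  linarith

/-- the functions of the chart used for the comparison -/
lemma hc_eq_log (k : ℕ) : hc m k =
    fun x => 1 / (2 * 2 ^ k) * Real.log (sumSq (fun j x => Fk (PP m k) k j (homog 0 x)) x) := rfl

lemma sPsh_hc (k : ℕ) : SPsh {0}ᶜ (hc m k) := by
  rw [hc_eq_log]
  apply sPsh_log_sumSq
  · intro j
    exact (contDiff_Fk (good_all k).1 j).comp (contDiff_homog' 0)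
  · intro x hx
    exact SS_pos k (tail_homog_ne hx)
  · exact isOpen_compl_singleton
  · positivity

lemma det_hc (k : ℕ) (x : Fin (m + 2) → ℂ) (hx : x ≠ 0) :
    (cHess (hc m k) x).det = 0 := by
  rw [hc_eq_log]
  apply det_log_sumSq
  · intro j
    exact (contDiff_Fk (good_all k).1 j).comp (contDiff_homog' 0)
  · exact SS_pos k (tail_homog_ne hx)
  · positivity

lemma hc_atBot (k : ℕ) : Tendsto (hc m k) (𝓝[≠] 0) atBot := by
  have hlog : Tendsto (fun x : Fin (m + 2) → ℂ => Real.log ‖x‖) (𝓝[≠] 0) atBot :=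
    Real.tendsto_log_nhdsNE_zero.comp (by
      have := tendsto_norm_nhdsNE_zero (E := Fin (m + 2) → ℂ)
      exact this.mono_right (nhdsWithin_mono _ (fun x hx => (ne_of_gt hx : x ≠ 0))))
  have h2 : Tendsto (fun x : Fin (m + 2) → ℂ => Real.log (m + 2) + Real.log 2 +
      1 / 2 ^ k * Real.log ‖x‖) (𝓝[≠] 0) atBot :=
    tendsto_atBot_add_const_left _ _ (hlog.const_mul_atBot (by positivity))
  apply tendsto_atBot_mono' _ _ h2
  have h3 : ∀ᶠ x in 𝓝[≠] (0 : Fin (m + 2) → ℂ), ‖x‖ ≤ 1 := by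
    apply mem_nhdsWithin_of_mem_nhds
    have := Metric.closedBall_mem_nhds (0 : Fin (m + 2) → ℂ) one_pos
    filter_upwards [this] with x hx
    simpa using hx
  filter_upwards [h3, self_mem_nhdsWithin] with x hx hx0
  exact hc_near k hx0 hx

/-- `v_k` is at bounded distance from the Fubini-Study potential -/
lemma vc_sub_fs (k : ℕ) : ∃ C : ℝ, ∀ x : Fin (m + 2) → ℂ, |vc m k x - fsPot x| ≤ C := by
  have hcS : IsCompact (Metric.sphere (0 : Fin (m + 3) → ℂ) 1) := isCompact_sphere 0 1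
  have hne : ∀ y ∈ Metric.sphere (0 : Fin (m + 3) → ℂ) 1, y ≠ 0 := by
    rintro y hy rfl
    simp at hy
  have hcont : ContinuousOn (fun y : Fin (m + 3) → ℂ => |vv m k y - LL y|)
      (Metric.sphere (0 : Fin (m + 3) → ℂ) 1) := by
    apply ContinuousOn.abs
    apply ContinuousOn.sub
    · unfold vv
      apply ContinuousOn.mul continuousOn_const
      apply ContinuousOn.log
      · apply Continuous.continuousOn
        unfold TT SS QQ
        have h1 : Continuous (sumSq (Fk (PP m k) k)) :=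
          (contDiff_sumSq (contDiff_Fk (good_all k).1)).continuous
        apply h1.add
        apply continuous_const.mul
        fun_prop
      · intro y hy
        exact (TT_pos k (hne y hy)).ne'
    · unfold LL
      apply ContinuousOn.mul continuousOn_const
      apply ContinuousOn.log
      · fun_prop
      · intro y hy
        exact (sum_sq_pos (hne y hy)).ne'
  obtain ⟨C, hC⟩ := (hcS.image_of_continuousOn hcont).bddAbove
  refine ⟨C, ?_⟩
  intro x
  obtain ⟨c, y, hc', -, hy, e⟩ := exists_sphere_rep (homog_ne_zero 0 x)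
  have hy0 : y ≠ 0 := by
    rintro rfl
    simp at hy
  unfold vc
  rw [← LL_homog 0 x, e, vv_smul k hc' hy0, LL_smul hc' hy0, add_sub_add_left_eq_sub]
  exact hC ⟨y, by simpa using hy, rfl⟩

lemma total_mass_vc (k : ℕ) :
    ∫⁻ x, ENNReal.ofReal (dH (vc m k) x) =
      ∫⁻ x : Fin (m + 2) → ℂ, ENNReal.ofReal (dH fsPot x) := by
  obtain ⟨C, hC⟩ := vc_sub_fs (m := m) k
  exact total_mass_dH (m := m + 1) (sPsh_vc k) hC

end estimates

end Pool.Agent.Helper853.Zm
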