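import Pool.Agent.Helper853.Zm.Local

open scoped Topology ContDiff ComplexOrder ENNReal ComplexConjugate
open MeasureTheory Filter

namespace Pool.Agent.Helper853.Zm

variable {m : ℕ}

/-- smooth psh functions on `V` decreasing to the limit function -/
structure Dec (V : Set (Fin (m + 2) → ℂ)) (u : ℕ → (Fin (m + 2) → ℂ) → ℝ) : Prop where
  isOpen : IsOpen V
  psh : ∀ j, SPsh V (u j)
  anti : ∀ x ∈ V, Antitone fun j => u j x
  lim : ∀ x ∈ V, x ≠ 0 → Tendsto (fun j => u j x) atTop (𝓝 (Vc m x))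

variable {V : Set (Fin (m + 2) → ℂ)} {u : ℕ → (Fin (m + 2) → ℂ) → ℝ}

lemma Dec.dini (h : Dec V u) {K : Set (Fin (m + 2) → ℂ)} (hK : IsCompact K) (hKV : K ⊆ V)
    (hK0 : (0 : Fin (m + 2) → ℂ) ∉ K) {δ : ℝ} (hδ : 0 < δ) :
    ∃ N, ∀ j ≥ N, ∀ x ∈ K, |u j x - Vc m x| ≤ δ := by
  have hcs : CompactSpace K := isCompact_iff_compactSpace.mp hK
  have hcV : Continuous fun y : K => Vc m (y : Fin (m + 2) → ℂ) := by
    have h1 : ContinuousOn (Vc m) K := continuousOn_Vc.mono (fun x hx h0 => by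
      rw [Set.mem_singleton_iff] at h0
      exact hK0 (h0 ▸ hx))
    exact continuousOn_iff_continuous_domRestrict.mp h1
  have hunif := Antitone.tendstoUniformly_of_forall_tendsto
    (F := fun j (y : K) => u j (y : Fin (m + 2) → ℂ))
    (f := fun y : K => Vc m (y : Fin (m + 2) → ℂ))
    (fun j => continuousOn_iff_continuous_domRestrict.mp ((h.psh j).1.continuousOn.mono hKV))
    (fun i j hij y => h.anti y (hKV y.2) hij) hcV
    (fun y => h.lim y (hKV y.2) (fun h0 => hK0 (h0 ▸ y.2)))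
  rw [Metric.tendstoUniformly_iff] at hunif
  obtain ⟨N, hN⟩ := eventually_atTop.mp (hunif δ hδ)
  refine ⟨N, ?_⟩
  intro j hj x hx
  have h2 := hN j hj ⟨x, hx⟩
  rw [dist_comm, Real.dist_eq] at h2
  exact h2.le

/-- wrapped comparison -/
lemma upper {Ω : Set (Fin (m + 2) → ℂ)} (hΩ : IsOpen Ω) {p : Fin (m + 2) → ℂ}
    {v w : (Fin (m + 2) → ℂ) → ℝ} (hw : SPsh Ω w) (hv : SPsh Ω v) {a b η s : ℝ} (hab : a < b)
    (hη : 0 < η) (hs : 0 ≤ s) (hs1 : s ≤ 1) (hsη : 16 * η ≤ s * (b - a))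
    (hsub : {x | fp p x ≤ b} ⊆ Ω)
    (hclose : ∀ x, a ≤ fp p x → fp p x ≤ b → |w x - v x| ≤ η) :
    ∫⁻ x in {x | fp p x ≤ a}, ENNReal.ofReal (dH w x) ≤
      (∫⁻ x in {x | fp p x ≤ b}, ENNReal.ofReal (dH v x)) +
        ENNReal.ofReal s * ∫⁻ x in {x | fp p x ≤ b}, ENNReal.ofReal (dH (fun y => v y + fp p y) x)
      := by
  have hf : SPsh Ω (fp p) := (sPsh_fp p).mono (Set.subset_univ _)
  have e : ∀ c ≤ b, {x | x ∈ Ω ∧ fp p x ≤ c} = {x | fp p x ≤ c} := by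
    intro c hc
    ext x
    simp only [Set.mem_ofPred_eq, and_iff_right_iff_imp]
    intro hx
    exact hsub (hx.trans hc)
  have hL : IsCompact {x | x ∈ Ω ∧ fp p x ≤ b} := by
    rw [e b le_rfl]
    exact isCompact_fp p b
  have key := compare_local (m := m + 1) hΩ hf hw hv hab hη hs hsη hL
    (fun x _ h1 h2 => hclose x h1 h2)
  rw [e a hab.le, e b le_rfl] at key
  refine key.trans ?_
  exact setLIntegral_mix_le hΩ (isCompact_fp p b).measurableSet hsub hf hv hs hs1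

lemma exists_small {c ε : ℝ≥0∞} (hc : c ≠ ⊤) (hε : 0 < ε) :
    ∃ s : ℝ, 0 < s ∧ s ≤ 1 ∧ ENNReal.ofReal s * c ≤ ε := by
  have h1 : Tendsto (fun s : ℝ => ENNReal.ofReal s * c) (𝓝[>] 0) (𝓝 0) := by
    have h2 : Tendsto (fun s : ℝ => ENNReal.ofReal s) (𝓝[>] 0) (𝓝 0) := by
      have h4 := ENNReal.tendsto_ofReal (tendsto_nhdsWithin_of_tendsto_nhds (s := Set.Ioi (0 : ℝ))
        (tendsto_id (x := 𝓝 (0 : ℝ))))
      simpa using h4
    have h5 := ENNReal.Tendsto.mul_const (b := c) h2 (Or.inr hc)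
    simpa using h5
  have h2 := (h1.eventually (ge_mem_nhds hε)).and (Ioo_mem_nhdsGT (show (0 : ℝ) < 1 by norm_num))
  obtain ⟨s, h4, h5⟩ := h2.exists
  exact ⟨s, h5.1, h5.2.le, h4⟩

lemma mass_away_eventually {r : ℝ} (hr : 0 < r) {ε : ℝ≥0∞} (hε : 0 < ε) :
    ∃ N, ∀ j ≥ N, ∫⁻ x in {x : Fin (m + 2) → ℂ | r ≤ ‖x‖}, ENNReal.ofReal (dH (vc m j) x) ≤ ε :=
  ENNReal.tendsto_atTop_zero.mp (mass_away' hr) ε hε

/-- Step 1: no mass off the origin. -/
lemma Dec.step1 (h : Dec V u) {p : Fin (m + 2) → ℂ} (hp : p ∈ V) (hp0 : p ≠ 0) :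
    ∃ b > 0, Tendsto (fun j => ∫⁻ x in {x | fp p x ≤ b}, ENNReal.ofReal (dH (u j) x))
      atTop (𝓝 0) := by
  have hn : 0 < ‖p‖ := norm_pos_iff.mpr hp0
  have hU : V ∩ {x : Fin (m + 2) → ℂ | ‖p‖ / 2 < ‖x‖} ∈ 𝓝 p :=
    inter_mem (h.isOpen.mem_nhds hp)
      ((isOpen_lt continuous_const continuous_norm).mem_nhds (show ‖p‖ / 2 < ‖p‖ by linarith))
  obtain ⟨T, hT, hTs⟩ := exists_fp_subset hU
  have hKV : {x | fp p x ≤ T} ⊆ V := hTs.trans Set.inter_subset_left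
  have hKr : {x | fp p x ≤ T} ⊆ {x : Fin (m + 2) → ℂ | ‖p‖ / 2 ≤ ‖x‖} :=
    fun x hx => (show ‖p‖ / 2 < ‖x‖ from (hTs hx).2).le
  refine ⟨T / 2, by positivity, ?_⟩
  rw [ENNReal.tendsto_atTop_zero]
  intro ε hε
  have hε2 : 0 < ε / 2 := ENNReal.half_pos hε.ne'
  have hcne : ENNReal.ofReal (2 ^ (m + 2)) * c0 (m + 2) ≠ ⊤ :=
    ENNReal.mul_ne_top ENNReal.ofReal_ne_top (c0_ne_top _)
  obtain ⟨s, hs0, hs1, hsε⟩ := exists_small hcne hε2
  set η : ℝ := s * T / 32 with hη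
  have hηpos : 0 < η := by positivity
  obtain ⟨N₁, hN₁⟩ := vc_unif (m := m) (show 0 < ‖p‖ / 2 by positivity)
    (show 0 < η / 2 by positivity)
  obtain ⟨N₂, hN₂⟩ := mass_away_eventually (m := m) (show 0 < ‖p‖ / 2 by positivity) hε2
  obtain ⟨N, hN⟩ := h.dini (isCompact_fp p T) hKV (fun h0 => by
    have := hKr h0
    simp only [Set.mem_ofPred_eq, norm_zero] at this
    linarith) (show 0 < η / 2 by positivity)
  refine ⟨N, ?_⟩
  intro j hj
  set k := max N₁ N₂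
  have key := upper (p := p) h.isOpen (h.psh j) ((sPsh_vc k).mono (Set.subset_univ V))
    (a := T / 2) (b := T) (η := η) (s := s) (by linarith) hηpos hs0.le hs1
    (by rw [hη]; linarith) hKV
    (fun x _ hx => by
      have h1 := abs_le.mp (hN j hj x hx)
      have h2 := abs_le.mp (hN₁ k (le_max_left _ _) x (hKr hx))
      rw [abs_le]
      constructor <;> linarith [h1.1, h1.2, h2.1, h2.2])
  refine key.trans ?_
  calc (∫⁻ x in {x | fp p x ≤ T}, ENNReal.ofReal (dH (vc m k) x)) +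
        ENNReal.ofReal s *
          ∫⁻ x in {x | fp p x ≤ T}, ENNReal.ofReal (dH (fun y => vc m k y + fp p y) x)
      ≤ ε / 2 + ENNReal.ofReal s * (ENNReal.ofReal (2 ^ (m + 2)) * c0 (m + 2)) := by
        apply add_le_add
        · exact (lintegral_mono_set hKr).trans (hN₂ k (le_max_right _ _))
        · apply mul_le_mul' le_rfl
          rw [← mass_vc_add_fp k p]
          exact setLIntegral_le_lintegral _ _
    _ ≤ ε / 2 + ε / 2 := add_le_add le_rfl hsε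
    _ = ε := ENNReal.add_halves ε

lemma exists_norm_of_fp {a : ℝ} (ha : 0 < a) :
    ∃ r > 0, ∀ x : Fin (m + 2) → ℂ, a ≤ fp 0 x → r ≤ ‖x‖ := by
  have h1 := fp_lt_mem_nhds (0 : Fin (m + 2) → ℂ) ha
  obtain ⟨r, hr, hr2⟩ := Metric.mem_nhds_iff.mp h1
  refine ⟨r, hr, ?_⟩
  intro x hx
  by_contra hcon
  push Not at hcon
  have := hr2 (show x ∈ Metric.ball 0 r by simpa using hcon)
  simp only [Set.mem_ofPred_eq] at this
  linarith

/-- closeness in a shell around the origin -/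
lemma Dec.shell (h : Dec V u) {a T η : ℝ} (ha : 0 < a) (hη : 0 < η)
    (hTV : {x | fp 0 x ≤ T} ⊆ V) :
    ∃ N, ∀ k ≥ N, ∀ j ≥ N, ∀ x, a ≤ fp 0 x → fp 0 x ≤ T → |u j x - vc m k x| ≤ η := by
  obtain ⟨r, hr, hrx⟩ := exists_norm_of_fp (m := m) ha
  obtain ⟨N₁, hN₁⟩ := vc_unif (m := m) hr (show 0 < η / 2 by positivity)
  have hKc : IsCompact ({x : Fin (m + 2) → ℂ | fp 0 x ≤ T} ∩ {x | a ≤ fp 0 x}) :=
    (isCompact_fp 0 T).inter_right (isClosed_le continuous_const (continuous_fp 0))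
  obtain ⟨N₂, hN₂⟩ := h.dini hKc (Set.inter_subset_left.trans hTV) (fun h0 => by
    have := h0.2
    simp only [Set.mem_ofPred_eq, fp_self] at this
    linarith) (show 0 < η / 2 by positivity)
  refine ⟨max N₁ N₂, ?_⟩
  intro k hk j hj x hx1 hx2
  have h1 := abs_le.mp (hN₂ j ((le_max_right _ _).trans hj) x ⟨hx2, hx1⟩)
  have h2 := abs_le.mp (hN₁ k ((le_max_left _ _).trans hk) x (hrx x hx1))
  rw [abs_le]
  constructor <;> linarith [h1.1, h1.2, h2.1, h2.2]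

/-- Step 2, upper bound for the mass near the origin. -/
lemma Dec.step2_upper (h : Dec V u) {a b : ℝ} (ha : 0 < a) (hab : a < b)
    (hV : {x | fp 0 x ≤ b} ⊆ V) {ε : ℝ≥0∞} (hε : 0 < ε) :
    ∃ N, ∀ j ≥ N, ∫⁻ x in {x | fp 0 x ≤ a}, ENNReal.ofReal (dH (u j) x) ≤ c0 (m + 2) + ε := by
  have hcne : ENNReal.ofReal (2 ^ (m + 2)) * c0 (m + 2) ≠ ⊤ :=
    ENNReal.mul_ne_top ENNReal.ofReal_ne_top (c0_ne_top _)
  obtain ⟨s, hs0, hs1, hsε⟩ := exists_small hcne hε
  set η : ℝ := s * (b - a) / 16 with hη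
  have hba : 0 < b - a := by linarith
  have hηpos : 0 < η := by positivity
  obtain ⟨N, hN⟩ := h.shell ha hηpos hV
  refine ⟨N, ?_⟩
  intro j hj
  have key := upper (p := 0) h.isOpen (h.psh j) ((sPsh_vc N).mono (Set.subset_univ V))
    (a := a) (b := b) (η := η) (s := s) hab hηpos hs0.le hs1
    (by rw [hη]; linarith) hV (fun x h1 h2 => hN N le_rfl j hj x h1 h2)
  refine key.trans ?_
  apply add_le_add
  · rw [← total_mass_vc' N]
    exact setLIntegral_le_lintegral _ _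
  · refine le_trans ?_ hsε
    apply mul_le_mul' le_rfl
    rw [← mass_vc_add_fp N 0]
    exact setLIntegral_le_lintegral _ _

/-- Step 2, lower bound for the mass near the origin. -/
lemma Dec.step2_lower (h : Dec V u) {b T : ℝ} (hb : 0 < b) (hbT : b < T)
    (hV : {x | fp 0 x ≤ T} ⊆ V) {ε : ℝ≥0∞} (hε : 0 < ε) :
    ∃ N, ∀ j ≥ N, c0 (m + 2) ≤ (∫⁻ x in {x | fp 0 x ≤ b}, ENNReal.ofReal (dH (u j) x)) + ε := by
  have hε2 : 0 < ε / 2 := ENNReal.half_pos hε.ne'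
  have hcne : ENNReal.ofReal (3 ^ (m + 2)) * c0 (m + 2) ≠ ⊤ :=
    ENNReal.mul_ne_top ENNReal.ofReal_ne_top (c0_ne_top _)
  obtain ⟨s, hs0, hs1, hsε⟩ := exists_small hcne hε2
  set a : ℝ := b / 2 with ha
  have ha0 : 0 < a := by positivity
  have hab : a < b := by rw [ha]; linarith
  have hTb : 0 < T - b := by linarith
  have hba : 0 < b - a := by linarith
  set η : ℝ := min (s * (b - a) / 16) ((T - b) / 16) with hη
  have hηpos : 0 < η := lt_min (by positivity) (by positivity)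
  have hη1 : η ≤ s * (b - a) / 16 := min_le_left _ _
  have hη2 : η ≤ (T - b) / 16 := min_le_right _ _
  obtain ⟨N, hN⟩ := h.shell ha0 hηpos hV
  obtain ⟨r, hr, hrx⟩ := exists_norm_of_fp (m := m) ha0
  obtain ⟨N₂, hN₂⟩ := mass_away_eventually (m := m) hr hε2
  set k := max N N₂ with hk
  refine ⟨N, ?_⟩
  intro j hj
  have hbV : {x | fp 0 x ≤ b} ⊆ V := fun x hx => hV (le_trans (show fp 0 x ≤ b from hx) hbT.le)
  -- mass of v_k near the origin
  have h1 : c0 (m + 2) ≤ (∫⁻ x in {x | fp 0 x ≤ a}, ENNReal.ofReal (dH (vc m k) x)) + ε / 2 := by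
    have hsplit : ∫⁻ x, ENNReal.ofReal (dH (vc m k) x) =
        (∫⁻ x in {x | fp 0 x ≤ a}, ENNReal.ofReal (dH (vc m k) x)) +
          ∫⁻ x in {x | fp 0 x ≤ a}ᶜ, ENNReal.ofReal (dH (vc m k) x) :=
      (lintegral_add_compl _ (isCompact_fp 0 a).measurableSet).symm
    rw [← total_mass_vc' k, hsplit]
    apply add_le_add le_rfl
    refine le_trans (lintegral_mono_set ?_) (hN₂ k (le_max_right _ _))
    intro x hx
    apply hrx
    simp only [Set.mem_compl_iff, Set.mem_ofPred_eq, not_le] at hx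
    exact hx.le
  have h2 := upper (p := 0) h.isOpen ((sPsh_vc k).mono (Set.subset_univ V)) (h.psh j)
    (a := a) (b := b) (η := η) (s := s) hab hηpos hs0.le hs1 (by linarith) hbV
    (fun x h1 h2 => by
      rw [abs_sub_comm]
      exact hN k (le_max_left _ _) j hj x h1 (h2.trans hbT.le))
  have hf : SPsh V (fp 0) := (sPsh_fp 0).mono (Set.subset_univ _)
  have e : ∀ c ≤ T, {x | x ∈ V ∧ fp 0 x ≤ c} = {x | fp 0 x ≤ c} := by
    intro c hc
    ext x
    simp only [Set.mem_ofPred_eq, and_iff_right_iff_imp]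
    intro hx
    exact hV (hx.trans hc)
  have hL : IsCompact {x | x ∈ V ∧ fp 0 x ≤ T} := by
    rw [e T le_rfl]
    exact isCompact_fp 0 T
  have h3 := compare_local (m := m + 1) h.isOpen hf ((h.psh j).add h.isOpen hf)
    (((sPsh_vc k).mono (Set.subset_univ V)).add h.isOpen hf) (a := b) (b := T) (η := η) (s := 1)
    hbT hηpos zero_le_one (by linarith) hL
    (fun x _ h1 h2 => by
      rw [add_sub_add_right_eq_sub]
      exact hN k (le_max_left _ _) j hj x (by linarith) h2)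
  rw [e b hbT.le, e T le_rfl] at h3
  have h4 : ∫⁻ x in {x | fp 0 x ≤ T}, ENNReal.ofReal
      (dH (fun y => (vc m k y + fp 0 y) + 1 * fp 0 y) x) ≤
      ENNReal.ofReal (3 ^ (m + 2)) * c0 (m + 2) := by
    simp_rw [one_mul]
    rw [← mass_vc_add_two k]
    exact setLIntegral_le_lintegral _ _
  calc c0 (m + 2) ≤ (∫⁻ x in {x | fp 0 x ≤ a}, ENNReal.ofReal (dH (vc m k) x)) + ε / 2 := h1
    _ ≤ ((∫⁻ x in {x | fp 0 x ≤ b}, ENNReal.ofReal (dH (u j) x)) +
        ENNReal.ofReal s *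
          ∫⁻ x in {x | fp 0 x ≤ b}, ENNReal.ofReal (dH (fun y => u j y + fp 0 y) x)) + ε / 2 :=
        add_le_add h2 le_rfl
    _ ≤ ((∫⁻ x in {x | fp 0 x ≤ b}, ENNReal.ofReal (dH (u j) x)) + ε / 2) + ε / 2 := by
        apply add_le_add _ le_rfl
        apply add_le_add le_rfl
        exact (mul_le_mul' le_rfl (h3.trans h4)).trans hsε
    _ = (∫⁻ x in {x | fp 0 x ≤ b}, ENNReal.ofReal (dH (u j) x)) + ε := by
        rw [add_assoc, ENNReal.add_halves]

lemma Dec.step2 (h : Dec V u) {b T : ℝ} (hb : 0 < b) (hbT : b < T)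
    (hV : {x | fp 0 x ≤ T} ⊆ V) :
    Tendsto (fun j => ∫⁻ x in {x | fp 0 x ≤ b}, ENNReal.ofReal (dH (u j) x)) atTop
      (𝓝 (c0 (m + 2))) := by
  rw [ENNReal.tendsto_atTop (c0_ne_top _)]
  intro ε hε
  obtain ⟨N₁, hN₁⟩ := h.step2_upper hb hbT hV hε
  obtain ⟨N₂, hN₂⟩ := h.step2_lower hb hbT hV hε
  refine ⟨max N₁ N₂, ?_⟩
  intro j hj
  constructor
  · rw [tsub_le_iff_right]
    exact hN₂ j ((le_max_right _ _).trans hj)
  · exact hN₁ j ((le_max_left _ _).trans hj)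

/-- no mass on compact sets avoiding the origin -/
lemma Dec.cover (h : Dec V u) {K : Set (Fin (m + 2) → ℂ)} (hK : IsCompact K) (hKV : K ⊆ V)
    (hK0 : (0 : Fin (m + 2) → ℂ) ∉ K) :
    Tendsto (fun j => ∫⁻ x in K, ENNReal.ofReal (dH (u j) x)) atTop (𝓝 0) := by
  apply hK.induction_on (p := fun S => Tendsto (fun j => ∫⁻ x in S, ENNReal.ofReal (dH (u j) x))
    atTop (𝓝 0))
  · simp
  · intro s t hst ht
    exact tendsto_of_tendsto_of_tendsto_of_le_of_le tendsto_const_nhds ht (fun _ => zero_le)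
      (fun j => lintegral_mono_set hst)
  · intro s t hs ht
    have := hs.add ht
    rw [add_zero] at this
    exact tendsto_of_tendsto_of_tendsto_of_le_of_le tendsto_const_nhds this (fun _ => zero_le)
      (fun j => lintegral_union_le _ _ _)
  · intro p hp
    obtain ⟨b, hb, hlim⟩ := h.step1 (hKV hp) (fun h0 => hK0 (h0 ▸ hp))
    exact ⟨{x | fp p x ≤ b}, mem_nhdsWithin_of_mem_nhds
      (mem_of_superset (fp_lt_mem_nhds p hb) fun x hx =>
        (show fp p x < b from hx).le), hlim⟩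

end Pool.Agent.Helper853.Zm
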