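import Pool.Agent.Helper853.DetIneq

open scoped Topology ContDiff ComplexOrder ENNReal Matrix

namespace Pool.Agent.Helper853.Zm

variable {n : ℕ}

lemma prod_mix {ι : Type*} (S : Finset ι) (l : ι → ℝ) {s : ℝ} (h0 : ∀ i ∈ S, 0 ≤ l i)
    (h1 : ∀ i ∈ S, l i ≤ 1) (hs0 : 0 ≤ s) (hs1 : s ≤ 1) :
    ∏ i ∈ S, ((1 - s) * l i + s) ≤ (1 - s) * ∏ i ∈ S, l i + s := by
  classical
  induction S using Finset.induction_on with
  | empty => simp
  | insert a S ha ih =>
    rw [Finset.prod_insert ha, Finset.prod_insert ha]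
    have ih' := ih (fun i hi => h0 i (Finset.mem_insert_of_mem hi))
      (fun i hi => h1 i (Finset.mem_insert_of_mem hi))
    have a0 := h0 a (Finset.mem_insert_self a S)
    have a1 := h1 a (Finset.mem_insert_self a S)
    have p0 : 0 ≤ ∏ i ∈ S, l i := Finset.prod_nonneg fun i hi => h0 i (Finset.mem_insert_of_mem hi)
    have p1 : ∏ i ∈ S, l i ≤ 1 := Finset.prod_le_one
      (fun i hi => h0 i (Finset.mem_insert_of_mem hi))
      (fun i hi => h1 i (Finset.mem_insert_of_mem hi))
    set P := ∏ i ∈ S, l i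
    have hc : 0 ≤ (1 - s) * l a + s := by
      have : 0 ≤ (1 - s) * l a := mul_nonneg (by linarith) a0
      linarith
    calc ((1 - s) * l a + s) * ∏ i ∈ S, ((1 - s) * l i + s)
        ≤ ((1 - s) * l a + s) * ((1 - s) * P + s) := mul_le_mul_of_nonneg_left ih' hc
      _ ≤ (1 - s) * (l a * P) + s := by
        have h2 : 0 ≤ s * (1 - s) * ((1 - l a) * (1 - P)) :=
          mul_nonneg (mul_nonneg hs0 (by linarith)) (mul_nonneg (by linarith) (by linarith))
        nlinarith

/-- determinant of a mixture of positive semidefinite matrices -/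
theorem det_mix_le {A B : Matrix (Fin n) (Fin n) ℂ} (hA : A.PosSemidef) (hB : B.PosSemidef)
    {s : ℝ} (h0 : 0 ≤ s) (h1 : s ≤ 1) :
    ((A + (s : ℂ) • B).det).re ≤ (1 - s) * (A.det).re + s * ((A + B).det).re := by
  have hC : (A + B).PosSemidef := hA.add hB
  have hAre : 0 ≤ (A.det).re := (Complex.nonneg_iff.mp hA.det_nonneg).1
  by_cases hCd : (A + B).det = 0
  · obtain ⟨v, hv0, hv⟩ := Matrix.exists_mulVec_eq_zero_iff.mpr hCd
    have e1 : star v ⬝ᵥ (A + B).mulVec v = 0 := by rw [hv]; simp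
    rw [Matrix.add_mulVec, dotProduct_add] at e1
    have a1 := hA.dotProduct_mulVec_nonneg v
    have b1 := hB.dotProduct_mulVec_nonneg v
    have a2 : star v ⬝ᵥ A.mulVec v = 0 := by
      apply le_antisymm _ a1
      calc star v ⬝ᵥ A.mulVec v ≤ star v ⬝ᵥ A.mulVec v + star v ⬝ᵥ B.mulVec v :=
            le_add_of_nonneg_right b1
        _ = 0 := e1
    have b2 : star v ⬝ᵥ B.mulVec v = 0 := by rw [a2, zero_add] at e1; exact e1
    have a3 := (hA.dotProduct_mulVec_zero_iff v).mp a2
    have b3 := (hB.dotProduct_mulVec_zero_iff v).mp b2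
    have : (A + (s : ℂ) • B).det = 0 := by
      apply Matrix.exists_mulVec_eq_zero_iff.mp
      refine ⟨v, hv0, ?_⟩
      rw [Matrix.add_mulVec, Matrix.smul_mulVec, a3, b3]
      simp
    rw [this, hCd]
    simp only [Complex.zero_re, mul_zero, add_zero]
    exact mul_nonneg (by linarith) hAre
  · obtain ⟨Q, hQ⟩ : ∃ Q : Matrix (Fin n) (Fin n) ℂ, A + B = Qᴴ * Q := exists_factor hC
    have hQd : Q.det ≠ 0 := by
      intro h
      apply hCd
      rw [hQ, Matrix.det_mul, h, mul_zero]
    have hQu : IsUnit Q.det := isUnit_iff_ne_zero.mpr hQd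
    set R := Q⁻¹ with hR
    have hQR : Q * R = 1 := Matrix.mul_nonsing_inv Q hQu
    have hRQ : R * Q = 1 := Matrix.nonsing_inv_mul Q hQu
    have hQRh : Qᴴ * Rᴴ = 1 := by rw [← Matrix.conjTranspose_mul, hRQ]; simp
    have hRQh : Rᴴ * Qᴴ = 1 := by rw [← Matrix.conjTranspose_mul, hQR]; simp
    set A' := Rᴴ * A * R with hA'
    set B' := Rᴴ * B * R with hB'
    have pA : A'.PosSemidef := hA.conjTranspose_mul_mul_same R
    have pB : B'.PosSemidef := hB.conjTranspose_mul_mul_same R
    have hsum : A' + B' = 1 := by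
      have : A' + B' = Rᴴ * (A + B) * R := by
        rw [hA', hB', ← Matrix.add_mul, ← Matrix.mul_add]
      rw [this, hQ]
      calc Rᴴ * (Qᴴ * Q) * R = (Rᴴ * Qᴴ) * (Q * R) := by simp only [Matrix.mul_assoc]
        _ = 1 := by rw [hRQh, hQR, one_mul]
    have hAe : A = Qᴴ * A' * Q := by
      rw [hA']
      calc A = (Qᴴ * Rᴴ) * A * (R * Q) := by rw [hQRh, hRQ, one_mul, mul_one]
        _ = _ := by simp only [Matrix.mul_assoc]
    have hBe : B = Qᴴ * B' * Q := by
      rw [hB']
      calc B = (Qᴴ * Rᴴ) * B * (R * Q) := by rw [hQRh, hRQ, one_mul, mul_one]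
        _ = _ := by simp only [Matrix.mul_assoc]
    have hB1 : B' = 1 - A' := by rw [← hsum]; simp
    have hcomb : A + (s : ℂ) • B =
        Qᴴ * (((1 - s : ℝ) : ℂ) • A' + (s : ℂ) • (1 : Matrix (Fin n) (Fin n) ℂ)) * Q := by
      conv_lhs => rw [hAe, hBe, hB1]
      simp only [Matrix.mul_sub, Matrix.sub_mul, Matrix.mul_add, Matrix.add_mul, Matrix.mul_smul,
        Matrix.smul_mul, Matrix.mul_one, smul_sub]
      push_cast
      module
    have hdetC : (A + B).det = Qᴴ.det * Q.det := by rw [hQ, Matrix.det_mul]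
    have hprod : (((1 - s : ℝ) : ℂ) • A' + (s : ℂ) • (1 : Matrix (Fin n) (Fin n) ℂ)).det =
        ((∏ i, ((1 - s) * pA.1.eigenvalues i + s) : ℝ) : ℂ) := by
      rw [det_affine_hermitian pA.1]
      push_cast
      rfl
    have hdetc : (A + (s : ℂ) • B).det =
        (A + B).det * ((∏ i, ((1 - s) * pA.1.eigenvalues i + s) : ℝ) : ℂ) := by
      rw [hcomb, Matrix.det_mul, Matrix.det_mul, hprod, hdetC]
      ring
    have hdetA : A.det = (A + B).det * ((∏ i, pA.1.eigenvalues i : ℝ) : ℂ) := by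
      conv_lhs => rw [hAe, Matrix.det_mul, Matrix.det_mul, pA.1.det_eq_prod_eigenvalues]
      rw [hdetC]
      push_cast
      simp only [Complex.coe_algebraMap]
      ring
    -- eigenvalues in [0,1]
    have hl0 : ∀ i, 0 ≤ pA.1.eigenvalues i := fun i => pA.eigenvalues_nonneg i
    have hl1 : ∀ i, pA.1.eigenvalues i ≤ 1 := by
      intro i
      have := pB.dotProduct_mulVec_nonneg (pA.1.eigenvectorBasis i).ofLp
      rw [hB1, Matrix.sub_mulVec, Matrix.one_mulVec, dotProduct_sub,
        pA.1.mulVec_eigenvectorBasis, dotProduct_smul] at this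
      have hn : star (pA.1.eigenvectorBasis i).ofLp ⬝ᵥ (pA.1.eigenvectorBasis i).ofLp = (1 : ℂ) := by
        rw [dotProduct_comm, ← EuclideanSpace.inner_eq_star_dotProduct]
        rw [inner_self_eq_norm_sq_to_K, pA.1.eigenvectorBasis.orthonormal.1 i]
        simp
      rw [hn] at this
      have h2 : (0 : ℂ) ≤ ((1 - pA.1.eigenvalues i : ℝ) : ℂ) := by
        convert this using 1
        push_cast
        simp
      have h3 := Complex.zero_le_real.mp h2
      linarith
    have hCre : 0 ≤ ((A + B).det).re := (Complex.nonneg_iff.mp hC.det_nonneg).1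
    have hmix := prod_mix Finset.univ (fun i => pA.1.eigenvalues i) (fun i _ => hl0 i)
      (fun i _ => hl1 i) h0 h1
    rw [hdetc, hdetA, Complex.re_mul_ofReal, Complex.re_mul_ofReal]
    calc ((A + B).det).re * ∏ i, ((1 - s) * pA.1.eigenvalues i + s)
        ≤ ((A + B).det).re * ((1 - s) * ∏ i, pA.1.eigenvalues i + s) :=
          mul_le_mul_of_nonneg_left hmix hCre
      _ = _ := by ring

end Pool.Agent.Helper853.Zm
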