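import Pool.Agent.Helper853.Zm.DetMix
import Pool.Agent.Helper853.Zm.Mass

open scoped Topology ContDiff ComplexOrder ENNReal ComplexConjugate
open MeasureTheory Filter

namespace Pool.Agent.Helper853.Zm

variable {n : ℕ}

/-- smooth plurisubharmonicity is a local property -/
lemma sPsh_of_local {Ω : Set (Fin n → ℂ)} {w : (Fin n → ℂ) → ℝ}
    (h : ∀ x ∈ Ω, ∃ v : (Fin n → ℂ) → ℝ, w =ᶠ[𝓝 x] v ∧ ContDiffAt ℝ ∞ v x ∧
      ∀ b, 0 ≤ lap2 v x b) : SPsh Ω w := by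
  constructor
  · intro x hx
    obtain ⟨v, h1, h2, -⟩ := h x hx
    exact (h2.congr_of_eventuallyEq h1).contDiffWithinAt
  · intro x hx b
    obtain ⟨v, h1, -, h3⟩ := h x hx
    rw [lap2_congr h1]
    exact h3 b

lemma SPsh.contDiffAt' {Ω : Set (Fin n → ℂ)} (hΩ : IsOpen Ω) {u : (Fin n → ℂ) → ℝ}
    (h : SPsh Ω u) {x : Fin n → ℂ} (hx : x ∈ Ω) : ContDiffAt ℝ ∞ u x :=
  h.1.contDiffAt (hΩ.mem_nhds hx)

/-- Local comparison: if `u` and `v` are `η`-close on a shell `a ≤ f ≤ b` of a psh function `f`,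
then the mass of `u` inside is at most the mass of `v + s f`. -/
theorem compare_local {m : ℕ} {Ω : Set (Fin (m + 1) → ℂ)} (hΩ : IsOpen Ω)
    {f u v : (Fin (m + 1) → ℂ) → ℝ} (hf : SPsh Ω f) (hu : SPsh Ω u) (hv : SPsh Ω v)
    {a b η s : ℝ} (hab : a < b) (hη : 0 < η) (hs : 0 ≤ s) (hsη : 16 * η ≤ s * (b - a))
    (hL : IsCompact {x | x ∈ Ω ∧ f x ≤ b})
    (hclose : ∀ x ∈ Ω, a ≤ f x → f x ≤ b → |u x - v x| ≤ η) :
    ∫⁻ x in {x | x ∈ Ω ∧ f x ≤ a}, ENNReal.ofReal (dH u x) ≤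
      ∫⁻ x in {x | x ∈ Ω ∧ f x ≤ b}, ENNReal.ofReal (dH (fun y => v y + s * f y) x) := by
  set L : Set (Fin (m + 1) → ℂ) := {x | x ∈ Ω ∧ f x ≤ b} with hLdef
  have hLΩ : L ⊆ Ω := fun x hx => hx.1
  set a' : ℝ := a + (b - a) / 4 with ha'
  set b' : ℝ := b - (b - a) / 4 with hb'
  have hab' : a' < b' := by rw [ha', hb']; linarith
  have haa' : a < a' := by rw [ha']; linarith
  have hbb' : b' < b := by rw [hb']; linarith
  have hfc : ContinuousOn f Ω := hf.1.continuousOn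
  set w' : (Fin (m + 1) → ℂ) → ℝ := fun y => (v y + s * f y) + (-(s * ((a + b) / 2))) with hw'
  have hw'p : SPsh Ω w' := (hv.add hΩ (hf.const_mul hΩ hs)).add_const _
  set K₀ : ℝ := Helper853.glue η η - η with hK₀
  set w : (Fin (m + 1) → ℂ) → ℝ := fun y =>
    if f y < a' then u y + K₀ else if b' < f y then w' y else
      w' y + Helper853.glue η (u y - w' y) with hw
  -- the differences in the shell
  have hlow : ∀ x ∈ Ω, a ≤ f x → f x < a' → η ≤ u x - w' x := by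
    intro x hx h1 h2
    have h3 := (abs_le.mp (hclose x hx h1 (by linarith))).1
    have h4 : s * f x ≤ s * a' := by gcongr
    simp only [hw']
    have h5 : s * a' - s * ((a + b) / 2) = -(s * (b - a) / 4) := by rw [ha']; ring
    linarith
  have hhigh : ∀ x ∈ Ω, b' < f x → f x ≤ b → u x - w' x ≤ -η := by
    intro x hx h1 h2
    have h3 := (abs_le.mp (hclose x hx (by linarith) h2)).2
    have h4 : s * b' ≤ s * f x := by gcongr
    simp only [hw']
    have h5 : s * b' - s * ((a + b) / 2) = s * (b - a) / 4 := by rw [hb']; ring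
    linarith
  have hw1 : ∀ x ∈ Ω, f x < a' → w =ᶠ[𝓝 x] fun y => u y + K₀ := by
    intro x hx h1
    have h2 : ∀ᶠ y in 𝓝 x, f y < a' :=
      (hfc.continuousAt (hΩ.mem_nhds hx)).eventually (gt_mem_nhds h1)
    filter_upwards [h2] with y hy
    simp only [hw]
    rw [if_pos hy]
  have hw3 : ∀ x ∈ Ω, b' < f x → w =ᶠ[𝓝 x] w' := by
    intro x hx h1
    have h2 : ∀ᶠ y in 𝓝 x, b' < f y :=
      (hfc.continuousAt (hΩ.mem_nhds hx)).eventually (lt_mem_nhds h1)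
    filter_upwards [h2] with y hy
    simp only [hw]
    rw [if_neg (by linarith), if_pos hy]
  have hw2 : ∀ x ∈ Ω, a < f x → f x < b →
      w =ᶠ[𝓝 x] fun y => w' y + Helper853.glue η (u y - w' y) := by
    intro x hx h1 h2
    have h3 : ∀ᶠ y in 𝓝 x, a < f y :=
      (hfc.continuousAt (hΩ.mem_nhds hx)).eventually (lt_mem_nhds h1)
    have h4 : ∀ᶠ y in 𝓝 x, f y < b :=
      (hfc.continuousAt (hΩ.mem_nhds hx)).eventually (gt_mem_nhds h2)
    filter_upwards [h3, h4, hΩ.mem_nhds hx] with y hy1 hy2 hyΩ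
    simp only [hw]
    split_ifs with h5 h6
    · rw [glue_of_ge hη (hlow y hyΩ hy1.le h5)]
      ring
    · rw [glue_of_le hη (hhigh y hyΩ h6 hy2.le), add_zero]
    · rfl
  have hwp : SPsh Ω w := by
    apply sPsh_of_local
    intro x hx
    by_cases h1 : f x < a'
    · have hp : SPsh Ω fun y => u y + K₀ := hu.add_const _
      exact ⟨_, hw1 x hx h1, SPsh.contDiffAt' hΩ hp hx, hp.2 x hx⟩
    · by_cases h2 : b' < f x
      · exact ⟨_, hw3 x hx h2, SPsh.contDiffAt' hΩ hw'p hx, hw'p.2 x hx⟩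
      · push Not at h1 h2
        have hp : SPsh Ω fun y => w' y + Helper853.glue η (u y - w' y) := hw'p.glue hΩ hu hη
        exact ⟨_, hw2 x hx (by linarith) (by linarith), SPsh.contDiffAt' hΩ hp hx, hp.2 x hx⟩
  have hAm : MeasurableSet {x | x ∈ Ω ∧ f x ≤ a} := by
    have h1 : IsOpen (Ω ∩ f ⁻¹' Set.Ioi a) := hfc.isOpen_inter_preimage hΩ isOpen_Ioi
    have h2 : {x | x ∈ Ω ∧ f x ≤ a} = Ω \ (Ω ∩ f ⁻¹' Set.Ioi a) := by
      ext x
      simp only [Set.mem_ofPred_eq, Set.mem_sdiff, Set.mem_inter_iff, Set.mem_preimage,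
        Set.mem_Ioi, not_and, not_lt]
      constructor
      · rintro ⟨h3, h4⟩
        exact ⟨h3, fun _ => h4⟩
      · rintro ⟨h3, h4⟩
        exact ⟨h3, h4 h3⟩
    rw [h2]
    exact hΩ.measurableSet.diff h1.measurableSet
  have h1 : ∫⁻ x in {x | x ∈ Ω ∧ f x ≤ a}, ENNReal.ofReal (dH u x) =
      ∫⁻ x in {x | x ∈ Ω ∧ f x ≤ a}, ENNReal.ofReal (dH w x) := by
    apply setLIntegral_congr_fun hAm
    intro x hx
    simp only
    rw [dH_congr (hw1 x hx.1 (lt_of_le_of_lt hx.2 haa')), dH_add_const]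
  have h2 : ∫ x in L, (cHess w x).det = ∫ x in L, (cHess w' x).det := by
    apply setIntegral_det_eq hΩ hL hLΩ hwp.1 hw'p.1
    intro x hx
    have h3 : b < f x := by
      by_contra h
      exact hx.2 ⟨hx.1, not_lt.mp h⟩
    simp only [hw]
    rw [if_neg (by linarith), if_pos (by linarith)]
  have h3 : ∀ x ∈ L, ENNReal.ofReal (dH w' x) =
      ENNReal.ofReal (dH (fun y => v y + s * f y) x) := by
    intro x _
    simp only [hw']
    rw [dH_add_const]
  calc ∫⁻ x in {x | x ∈ Ω ∧ f x ≤ a}, ENNReal.ofReal (dH u x)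
      = ∫⁻ x in {x | x ∈ Ω ∧ f x ≤ a}, ENNReal.ofReal (dH w x) := h1
    _ ≤ ∫⁻ x in L, ENNReal.ofReal (dH w x) :=
        lintegral_mono_set (fun x hx => ⟨hx.1, hx.2.trans hab.le⟩)
    _ = ENNReal.ofReal (∫ x in L, (cHess w x).det).re := setLIntegral_dH hΩ hL hLΩ hwp
    _ = ENNReal.ofReal (∫ x in L, (cHess w' x).det).re := by rw [h2]
    _ = ∫⁻ x in L, ENNReal.ofReal (dH w' x) := (setLIntegral_dH hΩ hL hLΩ hw'p).symm
    _ = ∫⁻ x in L, ENNReal.ofReal (dH (fun y => v y + s * f y) x) :=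
        setLIntegral_congr_fun hL.measurableSet h3

lemma dH_mix_le {Ω : Set (Fin n → ℂ)} (hΩ : IsOpen Ω) {f v : (Fin n → ℂ) → ℝ}
    (hf : SPsh Ω f) (hv : SPsh Ω v) {s : ℝ} (h0 : 0 ≤ s) (h1 : s ≤ 1) {x : Fin n → ℂ}
    (hx : x ∈ Ω) : dH (fun y => v y + s * f y) x ≤
      dH v x + s * dH (fun y => v y + f y) x := by
  have c1 := hv.contDiffAt hΩ hx
  have c2 := hf.contDiffAt hΩ hx
  have e1 : cHess (fun y => v y + s * f y) x = cHess v x + (s : ℂ) • cHess f x := by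
    rw [cHess_add c1 (contDiffAt_const.mul c2), cHess_const_mul c2]
  have e2 : cHess (fun y => v y + f y) x = cHess v x + cHess f x := cHess_add c1 c2
  have h2 := det_mix_le (hv.posSemidef hΩ hx) (hf.posSemidef hΩ hx) h0 h1
  have h3 := hv.dH_nonneg hΩ hx
  unfold dH at h3 ⊢
  rw [e1, e2]
  nlinarith

lemma setLIntegral_mix_le {Ω L : Set (Fin n → ℂ)} (hΩ : IsOpen Ω) (hL : MeasurableSet L)
    (hLΩ : L ⊆ Ω) {f v : (Fin n → ℂ) → ℝ}
    (hf : SPsh Ω f) (hv : SPsh Ω v) {s : ℝ} (h0 : 0 ≤ s) (h1 : s ≤ 1) :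
    ∫⁻ x in L, ENNReal.ofReal (dH (fun y => v y + s * f y) x) ≤
      (∫⁻ x in L, ENNReal.ofReal (dH v x)) +
        ENNReal.ofReal s * ∫⁻ x in L, ENNReal.ofReal (dH (fun y => v y + f y) x) := by
  have hvm : AEMeasurable (fun x => ENNReal.ofReal (dH v x)) (volume.restrict L) := by
    apply AEMeasurable.ennreal_ofReal
    exact ((hv.continuousOn_dH hΩ).mono hLΩ).aemeasurable hL
  calc ∫⁻ x in L, ENNReal.ofReal (dH (fun y => v y + s * f y) x)
      ≤ ∫⁻ x in L, (ENNReal.ofReal (dH v x) +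
        ENNReal.ofReal s * ENNReal.ofReal (dH (fun y => v y + f y) x)) := by
        apply setLIntegral_mono' hL
        intro x hx
        rw [← ENNReal.ofReal_mul h0, ← ENNReal.ofReal_add (hv.dH_nonneg hΩ (hLΩ hx))
          (mul_nonneg h0 ((hv.add hΩ hf).dH_nonneg hΩ (hLΩ hx)))]
        exact ENNReal.ofReal_le_ofReal (dH_mix_le hΩ hf hv h0 h1 (hLΩ hx))
    _ = _ := by
        rw [lintegral_add_left' hvm, lintegral_const_mul' _ _ ENNReal.ofReal_ne_top]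

/-- the exhaustion function centred at `p` -/
noncomputable def fp (p x : Fin n → ℂ) : ℝ := fsPot (x - p)

lemma fp_zero (x : Fin n → ℂ) : fp 0 x = fsPot x := by simp [fp]

lemma sPsh_fp (p : Fin n → ℂ) : SPsh Set.univ (fp p) := by
  have h := sPsh_log_sumSq (F := fun k (x : Fin n → ℂ) => homog 0 (x - p) k)
    (fun k => (contDiff_homog 0 k).comp (contDiff_id.sub contDiff_const)) (Ω := Set.univ)
    (fun x _ => by
      have := sumSq_homog 0 (x - p)
      unfold sumSq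
      rw [this]
      positivity) isOpen_univ (c := 1 / 2) (by norm_num)
  have e : (fp p : (Fin n → ℂ) → ℝ) =
      fun y => 1 / 2 * Real.log (sumSq (fun k (x : Fin n → ℂ) => homog 0 (x - p) k) y) := by
    ext y
    unfold sumSq fp fsPot
    rw [sumSq_homog]
  rw [e]
  exact h

lemma continuous_fp (p : Fin n → ℂ) : Continuous (fp p) :=
  continuousOn_univ.mp (sPsh_fp p).1.continuousOn

lemma fp_self (p : Fin n → ℂ) : fp p p = 0 := by
  simp [fp, fsPot]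

lemma fp_le_sum {p x : Fin n → ℂ} {b : ℝ} (h : fp p x ≤ b) :
    ∑ j, ‖x j - p j‖ ^ 2 ≤ Real.exp (2 * b) - 1 := by
  unfold fp fsPot at h
  have h0 : 0 ≤ ∑ j, ‖(x - p) j‖ ^ 2 := Finset.sum_nonneg fun j _ => by positivity
  have h1 : Real.log (1 + ∑ j, ‖(x - p) j‖ ^ 2) ≤ 2 * b := by linarith
  rw [Real.log_le_iff_le_exp (by linarith)] at h1
  simp only [Pi.sub_apply] at h1
  linarith

lemma fp_le_norm {p x : Fin n → ℂ} {b : ℝ} (h : fp p x ≤ b) :
    ‖x - p‖ ^ 2 ≤ Real.exp (2 * b) - 1 := by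
  have h1 := fp_le_sum h
  have h0 : 0 ≤ Real.exp (2 * b) - 1 :=
    le_trans (Finset.sum_nonneg fun j _ => by positivity) h1
  have h2 : ‖x - p‖ ≤ Real.sqrt (Real.exp (2 * b) - 1) := by
    rw [pi_norm_le_iff_of_nonneg (Real.sqrt_nonneg _)]
    intro j
    apply Real.le_sqrt_of_sq_le
    have : ‖x j - p j‖ ^ 2 ≤ ∑ j, ‖x j - p j‖ ^ 2 :=
      Finset.single_le_sum (f := fun j => ‖x j - p j‖ ^ 2) (fun i _ => by positivity)
        (Finset.mem_univ j)
    exact this.trans h1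
  calc ‖x - p‖ ^ 2 ≤ Real.sqrt (Real.exp (2 * b) - 1) ^ 2 := by gcongr
    _ = _ := Real.sq_sqrt h0

lemma isCompact_fp (p : Fin n → ℂ) (b : ℝ) : IsCompact {x : Fin n → ℂ | fp p x ≤ b} := by
  apply (isCompact_closedBall p (Real.sqrt (Real.exp (2 * b) - 1))).of_isClosed_subset
  · exact isClosed_le (continuous_fp p) continuous_const
  · intro x hx
    rw [Metric.mem_closedBall, dist_eq_norm]
    apply Real.le_sqrt_of_sq_le
    exact fp_le_norm hx

lemma exists_fp_subset {V : Set (Fin n → ℂ)} {p : Fin n → ℂ} (hV : V ∈ 𝓝 p) :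
    ∃ b > 0, {x : Fin n → ℂ | fp p x ≤ b} ⊆ V := by
  obtain ⟨ε, hε, hεV⟩ := Metric.mem_nhds_iff.mp hV
  have h1 : Tendsto (fun b : ℝ => Real.exp (2 * b) - 1) (𝓝[>] 0) (𝓝 0) := by
    have hc : Continuous fun b : ℝ => Real.exp (2 * b) - 1 := by fun_prop
    have := hc.tendsto 0
    simp only [mul_zero, Real.exp_zero, sub_self] at this
    exact this.mono_left nhdsWithin_le_nhds
  have h2 := h1.eventually (gt_mem_nhds (show 0 < ε ^ 2 by positivity))
  obtain ⟨b, hb, hb0⟩ := (h2.and self_mem_nhdsWithin).exists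
  refine ⟨b, hb0, ?_⟩
  intro x hx
  apply hεV
  rw [Metric.mem_ball, dist_eq_norm]
  have h3 := fp_le_norm hx
  by_contra hcon
  push Not at hcon
  have : ε ^ 2 ≤ ‖x - p‖ ^ 2 := by gcongr
  linarith

lemma fp_lt_mem_nhds (p : Fin n → ℂ) {b : ℝ} (hb : 0 < b) : {x : Fin n → ℂ | fp p x < b} ∈ 𝓝 p :=
  (isOpen_lt (continuous_fp p) continuous_const).mem_nhds (by simpa [fp_self] using hb)

lemma fp_sub_le (p : Fin n → ℂ) : ∃ C : ℝ, ∀ x, |fp p x - fsPot x| ≤ C := by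
  set c : ℝ := 2 * (1 + ∑ j, ‖p j‖ ^ 2) with hc
  have hp0 : 0 ≤ ∑ j, ‖p j‖ ^ 2 := Finset.sum_nonneg fun j _ => by positivity
  have hcpos : 0 < c := by positivity
  have key : ∀ x y : Fin n → ℂ, (∀ j, ‖x j‖ ≤ ‖y j‖ + ‖p j‖) →
      Real.log (1 + ∑ j, ‖x j‖ ^ 2) ≤ Real.log c + Real.log (1 + ∑ j, ‖y j‖ ^ 2) := by
    intro x y hxy
    have hx0 : 0 ≤ ∑ j, ‖x j‖ ^ 2 := Finset.sum_nonneg fun j _ => by positivity
    have hy0 : 0 ≤ ∑ j, ‖y j‖ ^ 2 := Finset.sum_nonneg fun j _ => by positivity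
    rw [← Real.log_mul hcpos.ne' (by positivity)]
    apply Real.log_le_log (by positivity)
    have h1 : ∑ j, ‖x j‖ ^ 2 ≤ 2 * ∑ j, ‖y j‖ ^ 2 + 2 * ∑ j, ‖p j‖ ^ 2 := by
      rw [Finset.mul_sum, Finset.mul_sum, ← Finset.sum_add_distrib]
      apply Finset.sum_le_sum
      intro j _
      have h2 : ‖x j‖ ^ 2 ≤ (‖y j‖ + ‖p j‖) ^ 2 := by
        have := hxy j
        gcongr
      nlinarith [sq_nonneg (‖y j‖ - ‖p j‖)]
    rw [hc]
    nlinarith
  refine ⟨(1 / 2) * Real.log c, ?_⟩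
  intro x
  have h1 := key (x - p) x (fun j => by
    simp only [Pi.sub_apply]
    exact norm_sub_le _ _)
  have h2 := key x (x - p) (fun j => by
    simp only [Pi.sub_apply]
    calc ‖x j‖ = ‖(x j - p j) + p j‖ := by rw [sub_add_cancel]
      _ ≤ _ := norm_add_le _ _)
  unfold fp fsPot
  rw [abs_le]
  constructor <;> linarith

/-- total masses -/
lemma total_mass_of_close {m : ℕ} {g : (Fin (m + 1) → ℂ) → ℝ} (hg : SPsh Set.univ g) {t C : ℝ}
    (ht : 0 < t) (hC : ∀ x, |g x - t * fsPot x| ≤ C) :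
    ∫⁻ x, ENNReal.ofReal (dH g x) = ENNReal.ofReal (t ^ (m + 1)) * c0 (m + 1) := by
  have hg' : SPsh Set.univ fun y => t⁻¹ * g y := hg.const_mul isOpen_univ (by positivity)
  have h1 := total_mass_dH hg' (C := C / t) (by
    intro x
    have h2 := hC x
    have e : t⁻¹ * g x - fsPot x = t⁻¹ * (g x - t * fsPot x) := by
      field_simp
    rw [e, abs_mul, abs_of_pos (by positivity : (0 : ℝ) < t⁻¹)]
    calc t⁻¹ * |g x - t * fsPot x| ≤ t⁻¹ * C := by gcongr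
      _ = C / t := by rw [div_eq_inv_mul])
  have e : ∀ x, ENNReal.ofReal (dH g x) =
      ENNReal.ofReal (t ^ (m + 1)) * ENNReal.ofReal (dH (fun y => t⁻¹ * g y) x) := by
    intro x
    rw [dH_const_mul (hg.contDiffAt isOpen_univ (Set.mem_univ x)),
      ← ENNReal.ofReal_mul (by positivity), ← mul_assoc, ← mul_pow, mul_inv_cancel₀ ht.ne',
      one_pow, one_mul]
  simp_rw [e]
  rw [lintegral_const_mul' _ _ ENNReal.ofReal_ne_top, h1]
  rfl

lemma mass_vc_add_fp {m : ℕ} (k : ℕ) (p : Fin (m + 2) → ℂ) :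
    ∫⁻ x, ENNReal.ofReal (dH (fun y => vc m k y + fp p y) x) =
      ENNReal.ofReal (2 ^ (m + 2)) * c0 (m + 2) := by
  obtain ⟨C₁, hC₁⟩ := vc_sub_fs (m := m) k
  obtain ⟨C₂, hC₂⟩ := fp_sub_le p
  apply total_mass_of_close ((sPsh_vc k).add isOpen_univ (sPsh_fp p)) (by norm_num)
    (C := C₁ + C₂)
  intro x
  have h1 := abs_le.mp (hC₁ x)
  have h2 := abs_le.mp (hC₂ x)
  rw [abs_le]
  constructor <;> linarith [h1.1, h1.2, h2.1, h2.2]

lemma mass_vc_add_two {m : ℕ} (k : ℕ) :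
    ∫⁻ x, ENNReal.ofReal (dH (fun y => (vc m k y + fp 0 y) + fp 0 y) x) =
      ENNReal.ofReal (3 ^ (m + 2)) * c0 (m + 2) := by
  obtain ⟨C₁, hC₁⟩ := vc_sub_fs (m := m) k
  apply total_mass_of_close (((sPsh_vc k).add isOpen_univ (sPsh_fp 0)).add isOpen_univ
    (sPsh_fp 0)) (by norm_num) (C := C₁)
  intro x
  have h1 := abs_le.mp (hC₁ x)
  rw [abs_le, fp_zero]
  constructor <;> linarith [h1.1, h1.2]

end Pool.Agent.Helper853.Zm
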